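import Pool.Agent.helper7.UL.K11a
import Pool.Agent.helper7.UL.K11r

/-!
# Project ul (MP_62ffdf_lc): kernel check for o = 11
-/

set_option autoImplicit false
set_option maxRecDepth 1000000

namespace Pool.Agent.UL

theorem K11 : chk 24 11 8 30 64 104 = true := by
  refine chk_of_seg 24 11 8 30 64 104 K11f K11p (by decide) ?_
  have h1 : seg 24 11 8 0 (10 + 13) = true :=
    seg_add 24 11 8 0 10 13 K11c0 (seg_of_segL 24 11 8 0 13 _ K11R0 K11c1)
  have h2 : seg 24 11 8 0 (23 + 13) = true :=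
    seg_add 24 11 8 0 23 13 h1 (seg_of_segL 24 11 8 13 13 _ K11R1 K11c2)
  have h3 : seg 24 11 8 0 (36 + 13) = true :=
    seg_add 24 11 8 0 36 13 h2 (seg_of_segL 24 11 8 26 13 _ K11R2 K11c3)
  have h4 : seg 24 11 8 0 (49 + 13) = true :=
    seg_add 24 11 8 0 49 13 h3 (seg_of_segL 24 11 8 39 13 _ K11R3 K11c4)
  have h5 : seg 24 11 8 0 (62 + 13) = true :=
    seg_add 24 11 8 0 62 13 h4 (seg_of_segL 24 11 8 52 13 _ K11R4 K11c5)
  have h6 : seg 24 11 8 0 (75 + 13) = true :=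
    seg_add 24 11 8 0 75 13 h5 (seg_of_segL 24 11 8 65 13 _ K11R5 K11c6)
  have h7 : seg 24 11 8 0 (88 + 13) = true :=
    seg_add 24 11 8 0 88 13 h6 (seg_of_segL 24 11 8 78 13 _ K11R6 K11c7)
  have h8 : seg 24 11 8 0 (101 + 3) = true :=
    seg_add 24 11 8 0 101 3 h7 (seg_of_segL 24 11 8 91 3 _ K11R7 K11c8)
  exact h8

end Pool.Agent.UL
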