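import Pool.Agent.helper7.UL.Seg2

/-!
# Project ul (MP_62ffdf_lc): kernel check for o = 13, part
-/

set_option autoImplicit false
set_option maxRecDepth 1000000

namespace Pool.Agent.UL

theorem K13c55 : segL 174 13 16
    ([383123885216472214589586756787577295904684770882224128, 1073741824, 383123885216472214589586756787577295904684771955965952, 4831838208, 268435456, 383123885216472214589586756787577295904684780277465088, 262143, 0, 383123885216472214589586756787577295904684747259903999, 0, 8489271295, 0, 66571993088], [0, 15569256448, 1610612736, 536870911, 0, 1073741824, 383123885216472214589586756787577295904684779472158720, 1073741824, 383123885216472214589586756787577295904684772560207871, 0, 383123885216472214589586756787577295904684746186162176, 36507222016, 17179869184])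
    434 8 = true := by decide +kernel

theorem K13c56 : segL 174 13 16
    ([383123885216472214589586756787577295904684763366031360, 18253611008, 16919822336, 260046848, 8388607, 0, 383123885216472214589586756787577295904684780411682816, 0, 383123885216472214589586756787577295904684747125686272, 33554432, 383123885216472214589586756787577295904684780445368319, 0, 66641199104], [1041235968, 32505856, 0, 268435456, 383123885216472214589586756787577295904684780545900543, 0, 805306367, 0, 201129983, 0, 383123885216472214589586756787577295904684747192795136, 8323072, 32768])
    442 8 = true := by decide +kernel

theorem K13c57 : segL 174 13 16
    ([0, 1083113472, 0, 383123885216472214589586756787577295904684780009029632, 58720256, 8388608, 383123885216472214589586756787577295904684780277465088, 299892736, 2097152, 383123885216472214589586756787577295904684780493471744, 0, 14155775, 0], [0, 0, 0, 8454143, 0, 503316480, 35651584, 0, 2097151, 0, 16777216, 383123885216472214589586756787577295904684780533317632, 14155776])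
    450 8 = true := by decide +kernel

theorem K13c58 : segL 174 13 16
    ([0, 2097151, 0, 383123885216472214589586756787577295904684780009553920, 209195008, 503808, 4095, 0, 383123885216472214589586756787577295904684780280086528, 1576960, 520192, 0, 16777216], [2097152, 383123885216472214589586756787577295904684780543819776, 2080768, 16383, 0, 268435456, 383123885216472214589586756787577295904684780329910272, 2080768, 16383, 0, 201326592, 0, 16908288])
    458 8 = true := by decide +kernel

theorem K13c59 : segL 174 13 16
    ([0, 0, 49152, 16384, 209190912, 528384, 520192, 0, 383123885216472214589586756787577295904684780280093696, 1280, 1023, 0, 268173312], [0, 128, 0, 16384, 16383, 0, 253894656, 9216, 1023, 0, 383123885216472214589586756787577295904684780277465088, 268566528, 268304576])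
    466 8 = true := by decide +kernel

theorem K13c60 : segL 174 13 16
    ([0, 0, 49152, 16384, 209190912, 528384, 524287, 0, 383123885216472214589586756787577295904684780280093696, 1280, 1023, 0, 262080], [0, 128, 0, 16384, 16383, 0, 383123885216472214589586756787577295904684780330278911, 0, 1023, 0, 383123885216472214589586756787577295904684780277465088, 0, 130816])
    474 8 = true := by decide +kernel

theorem K13c61 : segL 174 13 16
    ([0, 0, 49152, 16384, 209190912, 528384, 520192, 0, 383123885216472214589586756787577295904684780280093696, 1280, 1023, 0, 268173312], [0, 128, 0, 16384, 16383, 0, 253898751, 0, 1023, 0, 383123885216472214589586756787577295904684780277465088, 0, 268304576])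
    482 2 = true := by decide +kernel

end Pool.Agent.UL
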