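import Pool.Agent.helper7.UL.K13a
import Pool.Agent.helper7.UL.K13b
import Pool.Agent.helper7.UL.K13c
import Pool.Agent.helper7.UL.K13d
import Pool.Agent.helper7.UL.K13e
import Pool.Agent.helper7.UL.K13f
import Pool.Agent.helper7.UL.K13r

/-!
# Project ul (MP_62ffdf_lc): kernel check for o = 13
-/

set_option autoImplicit false
set_option maxRecDepth 1000000

namespace Pool.Agent.UL

theorem K13 : chk 174 13 16 449 16 484 = true := by
  refine chk_of_seg 174 13 16 449 16 484 K13f K13p (by decide) ?_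
  have h1 : seg 174 13 16 0 (8 + 8) = true :=
    seg_add 174 13 16 0 8 8 K13c0 K13c1
  have h2 : seg 174 13 16 0 (16 + 2) = true :=
    seg_add 174 13 16 0 16 2 h1 K13c2
  have h3 : seg 174 13 16 0 (18 + 8) = true :=
    seg_add 174 13 16 0 18 8 h2 (seg_of_segL 174 13 16 0 8 _ K13R0 K13c3)
  have h4 : seg 174 13 16 0 (26 + 8) = true :=
    seg_add 174 13 16 0 26 8 h3 (seg_of_segL 174 13 16 8 8 _ K13R1 K13c4)
  have h5 : seg 174 13 16 0 (34 + 8) = true :=
    seg_add 174 13 16 0 34 8 h4 (seg_of_segL 174 13 16 16 8 _ K13R2 K13c5)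
  have h6 : seg 174 13 16 0 (42 + 8) = true :=
    seg_add 174 13 16 0 42 8 h5 (seg_of_segL 174 13 16 24 8 _ K13R3 K13c6)
  have h7 : seg 174 13 16 0 (50 + 8) = true :=
    seg_add 174 13 16 0 50 8 h6 (seg_of_segL 174 13 16 32 8 _ K13R4 K13c7)
  have h8 : seg 174 13 16 0 (58 + 8) = true :=
    seg_add 174 13 16 0 58 8 h7 (seg_of_segL 174 13 16 40 8 _ K13R5 K13c8)
  have h9 : seg 174 13 16 0 (66 + 8) = true :=
    seg_add 174 13 16 0 66 8 h8 (seg_of_segL 174 13 16 48 8 _ K13R6 K13c9)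
  have h10 : seg 174 13 16 0 (74 + 8) = true :=
    seg_add 174 13 16 0 74 8 h9 (seg_of_segL 174 13 16 56 8 _ K13R7 K13c10)
  have h11 : seg 174 13 16 0 (82 + 8) = true :=
    seg_add 174 13 16 0 82 8 h10 (seg_of_segL 174 13 16 64 8 _ K13R8 K13c11)
  have h12 : seg 174 13 16 0 (90 + 8) = true :=
    seg_add 174 13 16 0 90 8 h11 (seg_of_segL 174 13 16 72 8 _ K13R9 K13c12)
  have h13 : seg 174 13 16 0 (98 + 8) = true :=
    seg_add 174 13 16 0 98 8 h12 (seg_of_segL 174 13 16 80 8 _ K13R10 K13c13)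
  have h14 : seg 174 13 16 0 (106 + 8) = true :=
    seg_add 174 13 16 0 106 8 h13 (seg_of_segL 174 13 16 88 8 _ K13R11 K13c14)
  have h15 : seg 174 13 16 0 (114 + 8) = true :=
    seg_add 174 13 16 0 114 8 h14 (seg_of_segL 174 13 16 96 8 _ K13R12 K13c15)
  have h16 : seg 174 13 16 0 (122 + 8) = true :=
    seg_add 174 13 16 0 122 8 h15 (seg_of_segL 174 13 16 104 8 _ K13R13 K13c16)
  have h17 : seg 174 13 16 0 (130 + 8) = true :=
    seg_add 174 13 16 0 130 8 h16 (seg_of_segL 174 13 16 112 8 _ K13R14 K13c17)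
  have h18 : seg 174 13 16 0 (138 + 8) = true :=
    seg_add 174 13 16 0 138 8 h17 (seg_of_segL 174 13 16 120 8 _ K13R15 K13c18)
  have h19 : seg 174 13 16 0 (146 + 8) = true :=
    seg_add 174 13 16 0 146 8 h18 (seg_of_segL 174 13 16 128 8 _ K13R16 K13c19)
  have h20 : seg 174 13 16 0 (154 + 8) = true :=
    seg_add 174 13 16 0 154 8 h19 (seg_of_segL 174 13 16 136 8 _ K13R17 K13c20)
  have h21 : seg 174 13 16 0 (162 + 8) = true :=
    seg_add 174 13 16 0 162 8 h20 (seg_of_segL 174 13 16 144 8 _ K13R18 K13c21)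
  have h22 : seg 174 13 16 0 (170 + 8) = true :=
    seg_add 174 13 16 0 170 8 h21 (seg_of_segL 174 13 16 152 8 _ K13R19 K13c22)
  have h23 : seg 174 13 16 0 (178 + 8) = true :=
    seg_add 174 13 16 0 178 8 h22 (seg_of_segL 174 13 16 160 8 _ K13R20 K13c23)
  have h24 : seg 174 13 16 0 (186 + 8) = true :=
    seg_add 174 13 16 0 186 8 h23 (seg_of_segL 174 13 16 168 8 _ K13R21 K13c24)
  have h25 : seg 174 13 16 0 (194 + 8) = true :=
    seg_add 174 13 16 0 194 8 h24 (seg_of_segL 174 13 16 176 8 _ K13R22 K13c25)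
  have h26 : seg 174 13 16 0 (202 + 8) = true :=
    seg_add 174 13 16 0 202 8 h25 (seg_of_segL 174 13 16 184 8 _ K13R23 K13c26)
  have h27 : seg 174 13 16 0 (210 + 8) = true :=
    seg_add 174 13 16 0 210 8 h26 (seg_of_segL 174 13 16 192 8 _ K13R24 K13c27)
  have h28 : seg 174 13 16 0 (218 + 8) = true :=
    seg_add 174 13 16 0 218 8 h27 (seg_of_segL 174 13 16 200 8 _ K13R25 K13c28)
  have h29 : seg 174 13 16 0 (226 + 8) = true :=
    seg_add 174 13 16 0 226 8 h28 (seg_of_segL 174 13 16 208 8 _ K13R26 K13c29)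
  have h30 : seg 174 13 16 0 (234 + 8) = true :=
    seg_add 174 13 16 0 234 8 h29 (seg_of_segL 174 13 16 216 8 _ K13R27 K13c30)
  have h31 : seg 174 13 16 0 (242 + 8) = true :=
    seg_add 174 13 16 0 242 8 h30 (seg_of_segL 174 13 16 224 8 _ K13R28 K13c31)
  have h32 : seg 174 13 16 0 (250 + 8) = true :=
    seg_add 174 13 16 0 250 8 h31 (seg_of_segL 174 13 16 232 8 _ K13R29 K13c32)
  have h33 : seg 174 13 16 0 (258 + 8) = true :=
    seg_add 174 13 16 0 258 8 h32 (seg_of_segL 174 13 16 240 8 _ K13R30 K13c33)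
  have h34 : seg 174 13 16 0 (266 + 8) = true :=
    seg_add 174 13 16 0 266 8 h33 (seg_of_segL 174 13 16 248 8 _ K13R31 K13c34)
  have h35 : seg 174 13 16 0 (274 + 8) = true :=
    seg_add 174 13 16 0 274 8 h34 (seg_of_segL 174 13 16 256 8 _ K13R32 K13c35)
  have h36 : seg 174 13 16 0 (282 + 8) = true :=
    seg_add 174 13 16 0 282 8 h35 (seg_of_segL 174 13 16 264 8 _ K13R33 K13c36)
  have h37 : seg 174 13 16 0 (290 + 8) = true :=
    seg_add 174 13 16 0 290 8 h36 (seg_of_segL 174 13 16 272 8 _ K13R34 K13c37)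
  have h38 : seg 174 13 16 0 (298 + 8) = true :=
    seg_add 174 13 16 0 298 8 h37 (seg_of_segL 174 13 16 280 8 _ K13R35 K13c38)
  have h39 : seg 174 13 16 0 (306 + 8) = true :=
    seg_add 174 13 16 0 306 8 h38 (seg_of_segL 174 13 16 288 8 _ K13R36 K13c39)
  have h40 : seg 174 13 16 0 (314 + 8) = true :=
    seg_add 174 13 16 0 314 8 h39 (seg_of_segL 174 13 16 296 8 _ K13R37 K13c40)
  have h41 : seg 174 13 16 0 (322 + 8) = true :=
    seg_add 174 13 16 0 322 8 h40 (seg_of_segL 174 13 16 304 8 _ K13R38 K13c41)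
  have h42 : seg 174 13 16 0 (330 + 8) = true :=
    seg_add 174 13 16 0 330 8 h41 (seg_of_segL 174 13 16 312 8 _ K13R39 K13c42)
  have h43 : seg 174 13 16 0 (338 + 8) = true :=
    seg_add 174 13 16 0 338 8 h42 (seg_of_segL 174 13 16 320 8 _ K13R40 K13c43)
  have h44 : seg 174 13 16 0 (346 + 8) = true :=
    seg_add 174 13 16 0 346 8 h43 (seg_of_segL 174 13 16 328 8 _ K13R41 K13c44)
  have h45 : seg 174 13 16 0 (354 + 8) = true :=
    seg_add 174 13 16 0 354 8 h44 (seg_of_segL 174 13 16 336 8 _ K13R42 K13c45)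
  have h46 : seg 174 13 16 0 (362 + 8) = true :=
    seg_add 174 13 16 0 362 8 h45 (seg_of_segL 174 13 16 344 8 _ K13R43 K13c46)
  have h47 : seg 174 13 16 0 (370 + 8) = true :=
    seg_add 174 13 16 0 370 8 h46 (seg_of_segL 174 13 16 352 8 _ K13R44 K13c47)
  have h48 : seg 174 13 16 0 (378 + 8) = true :=
    seg_add 174 13 16 0 378 8 h47 (seg_of_segL 174 13 16 360 8 _ K13R45 K13c48)
  have h49 : seg 174 13 16 0 (386 + 8) = true :=
    seg_add 174 13 16 0 386 8 h48 (seg_of_segL 174 13 16 368 8 _ K13R46 K13c49)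
  have h50 : seg 174 13 16 0 (394 + 8) = true :=
    seg_add 174 13 16 0 394 8 h49 (seg_of_segL 174 13 16 376 8 _ K13R47 K13c50)
  have h51 : seg 174 13 16 0 (402 + 8) = true :=
    seg_add 174 13 16 0 402 8 h50 (seg_of_segL 174 13 16 384 8 _ K13R48 K13c51)
  have h52 : seg 174 13 16 0 (410 + 8) = true :=
    seg_add 174 13 16 0 410 8 h51 (seg_of_segL 174 13 16 392 8 _ K13R49 K13c52)
  have h53 : seg 174 13 16 0 (418 + 8) = true :=
    seg_add 174 13 16 0 418 8 h52 (seg_of_segL 174 13 16 400 8 _ K13R50 K13c53)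
  have h54 : seg 174 13 16 0 (426 + 8) = true :=
    seg_add 174 13 16 0 426 8 h53 (seg_of_segL 174 13 16 408 8 _ K13R51 K13c54)
  have h55 : seg 174 13 16 0 (434 + 8) = true :=
    seg_add 174 13 16 0 434 8 h54 (seg_of_segL 174 13 16 416 8 _ K13R52 K13c55)
  have h56 : seg 174 13 16 0 (442 + 8) = true :=
    seg_add 174 13 16 0 442 8 h55 (seg_of_segL 174 13 16 424 8 _ K13R53 K13c56)
  have h57 : seg 174 13 16 0 (450 + 8) = true :=
    seg_add 174 13 16 0 450 8 h56 (seg_of_segL 174 13 16 432 8 _ K13R54 K13c57)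
  have h58 : seg 174 13 16 0 (458 + 8) = true :=
    seg_add 174 13 16 0 458 8 h57 (seg_of_segL 174 13 16 440 8 _ K13R55 K13c58)
  have h59 : seg 174 13 16 0 (466 + 8) = true :=
    seg_add 174 13 16 0 466 8 h58 (seg_of_segL 174 13 16 448 8 _ K13R56 K13c59)
  have h60 : seg 174 13 16 0 (474 + 8) = true :=
    seg_add 174 13 16 0 474 8 h59 (seg_of_segL 174 13 16 456 8 _ K13R57 K13c60)
  have h61 : seg 174 13 16 0 (482 + 2) = true :=
    seg_add 174 13 16 0 482 2 h60 (seg_of_segL 174 13 16 464 2 _ K13R58 K13c61)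
  exact h61

end Pool.Agent.UL
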