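import Pool.Agent.helper7.UL.Seg2

/-!
# Project ul (MP_62ffdf_lc): kernel check for o = 15, part
-/

set_option autoImplicit false
set_option maxRecDepth 1000000

namespace Pool.Agent.UL

theorem K15c7 : segL 64 15 16
    ([0, 295147060754422693887, 0, 140737488355328, 0, 211106232532992, 35184372088832, 295147834810608648192, 0, 1108307720798208, 17592186044416, 295145653379539140608, 3096224743817215, 0, 295146216329492561920], [281474976710656, 295147025570050605055, 0, 844424930131968, 422212465065983, 0, 0, 3377699720527872, 1161084278931455, 0, 1688849860263936, 0, 295146216329492561920, 2111062325329920, 211106232532991])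
    68 10 = true := by decide +kernel

theorem K15c8 : segL 64 15 16
    ([1099511627775, 0, 562949953421312, 295147342229399404544, 0, 562949953421312, 295147413697655209983, 0, 439804651110400, 123969936031743, 0, 32985348833280, 2199023255552, 6597069766656, 0], [295147343328911032320, 545907523190784, 17042430230528, 0, 391426139488255, 0, 295147342229399404544, 597034813882368, 1099511627776, 295147834810608648192, 37658273251327, 0, 0, 2249600790429695, 0])
    78 10 = true := by decide +kernel

theorem K15c9 : segL 64 15 16
    ([17609365913599, 0, 4294967296, 295147048655499821056, 4294967296, 295147905046208839679, 0, 70368744177664, 295147834810608648192, 70368744177664, 295147834844968386559, 0, 79199196938239, 0, 105553116266496], [295147905127813218304, 17179869183, 0, 0, 0, 295147623979254022144, 281268818280448, 206158430208, 0, 34359738368, 295147658716949512192, 34359738368, 295147764441864470528, 202310139510784, 0])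
    88 10 = true := by decide +kernel

theorem K15c10 : segL 64 15 16
    ([4396033245183, 0, 4123168604160, 0, 15032385535, 0, 6442450944, 1342177279, 0, 1006632960, 0, 805306368, 0, 16911433728, 0], [295147900781306314752, 4672924418048, 3556232921088, 17179869184, 295147905162172956672, 11811160063, 0, 295147905179352825855, 0, 67645734912, 0, 805306368, 0, 0, 10995116277760])
    98 10 = true := by decide +kernel

theorem K15c11 : segL 64 15 16
    ([134217728, 295147905179218608128, 234881023, 0, 16777216, 0, 566910517248, 25165824, 0, 8573157376, 16777216, 295147905178291666944, 4194304, 0, 1073741824], [0, 67108864, 295147905179252162559, 0, 2182900350976, 33554431, 0, 541165879296, 8615100416, 0, 142606335, 0, 1879048192, 469762047, 0])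
    108 10 = true := by decide +kernel

theorem K15c12 : segL 64 15 16
    ([67108864, 295147905179319271423, 0, 0, 2097151, 0, 566868574208, 70254592, 1048576, 295147904629597011968, 560493494272, 1077673984, 0, 295147905179084390400, 0], [33554432, 295147905179323465728, 29360128, 0, 295147905179226996736, 126353408, 5767168, 0, 558361739264, 786432, 0, 6442450944, 0, 343932927, 0])
    118 10 = true := by decide +kernel

theorem K15c13 : segL 64 15 16
    ([176092610560, 1966080, 0, 0, 295147905179342290944, 36864, 12288, 0, 137438953472, 295147905050472218624, 163840, 0, 137438953472, 295147904767040159744, 128846921728], [0, 103079215104, 0, 49152, 16383, 0, 2146304, 0, 2228224, 0, 2147483648, 547616686080, 0, 65536, 0])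
    128 10 = true := by decide +kernel

end Pool.Agent.UL
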