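import Pool.Agent.helper7.UL.Seg2

/-!
# Project ul (MP_62ffdf_lc): kernel check for o = 15, part
-/

set_option autoImplicit false
set_option maxRecDepth 1000000

namespace Pool.Agent.UL

theorem K15c14 : segL 64 15 16
    ([188978561024, 17181048831, 0, 4294967296, 295147905110633349120, 68719509504, 0, 17179869184, 295147905162173005824, 32767, 0, 8192, 295147905179352817664, 4095, 0], [1048576, 295147905041913872384, 137439477760, 137438478336, 0, 68719509504, 68719157248, 49152, 16384, 295147905179352662016, 40960, 0, 4096, 295147905076273606655, 0])
    138 10 = true := by decide +kernel

theorem K15c15 : segL 64 15 16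
    ([0, 1610612736, 0, 134217728, 295147905179218608128, 134262783, 0, 5368709119, 0, 0, 0, 1073740799, 0, 4831837696, 512], [2684354560, 1610612736, 470810623, 0, 0, 295147905170763153408, 2147483648, 295147905177205350400, 0, 3221225472, 1073741824, 295147905174520987648, 536871935, 0, 1073741823])
    148 10 = true := by decide +kernel

theorem K15c16 : segL 64 15 16
    ([295147905177004014592, 256, 295147905178815954175, 0, 0, 0, 67108863, 0, 295147905179319271423, 0, 295147905175057858560, 7524581376, 1065353216, 8384512, 0], [1023, 0, 295147905178883062848, 0, 268435456, 67108864, 295147905179218608128, 134217728, 295147905179252162559, 0, 33554431, 0, 1073741824, 1879044096, 0])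
    158 10 = true := by decide +kernel

theorem K15c17 : segL 64 15 16
    ([68156416, 0, 536871167, 0, 0, 268435455, 0, 67108863, 0, 33554431, 0, 125829120, 0, 295147905177236799488, 0], [133169152, 0, 295147905178883063616, 0, 268435456, 295147905179151499264, 67108864, 295147905179168276480, 33554432, 295147905179218608128, 134217728, 100663296, 35651584, 27262975, 0])
    168 10 = true := by decide +kernel

theorem K15c18 : segL 64 15 16
    ([68156416, 0, 537394944, 0, 0, 0, 67108863, 0, 67108864, 295147905179319271423, 0, 134217727, 0, 2122317823, 0], [133169152, 524288, 470286144, 0, 268435456, 67108864, 295147905179218608128, 218103808, 0, 295147905179218608128, 8388608, 295147905179344437248, 0, 295147905179319271424, 0])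
    178 10 = true := by decide +kernel

theorem K15c19 : segL 64 15 16
    ([68156416, 0, 537394944, 0, 0, 268435455, 0, 67108863, 0, 295147905179117944832, 134217728, 295147905179352825855, 0, 2139095040, 0], [133169152, 0, 470286144, 0, 268435456, 295147905179151499264, 67108864, 295147905179084390400, 268435456, 201326591, 0, 295147905179243773952, 0, 31457280, 0])
    188 10 = true := by decide +kernel

theorem K15c20 : segL 64 15 16
    ([68156416, 0, 536871167, 0, 0, 0, 67108863, 0, 134217727, 0, 192937984, 8388607, 0, 295147905177207439359, 0], [133169152, 524288, 295147905178883063616, 0, 268435456, 67108864, 295147905179218608128, 134217728, 295147905178966949888, 83886079, 0, 295147905179226996735, 0, 295147905179327660031, 0])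
    198 2 = true := by decide +kernel

end Pool.Agent.UL
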