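import Pool.Agent.helper7.UL.K15a
import Pool.Agent.helper7.UL.K15b
import Pool.Agent.helper7.UL.K15c
import Pool.Agent.helper7.UL.K15r

/-!
# Project ul (MP_62ffdf_lc): kernel check for o = 15
-/

set_option autoImplicit false
set_option maxRecDepth 1000000

namespace Pool.Agent.UL

theorem K15 : chk 64 15 16 150 32 200 = true := by
  refine chk_of_seg 64 15 16 150 32 200 K15f K15p (by decide) ?_
  have h1 : seg 64 15 16 0 (10 + 8) = true :=
    seg_add 64 15 16 0 10 8 K15c0 K15c1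
  have h2 : seg 64 15 16 0 (18 + 10) = true :=
    seg_add 64 15 16 0 18 10 h1 (seg_of_segL 64 15 16 0 10 _ K15R0 K15c2)
  have h3 : seg 64 15 16 0 (28 + 10) = true :=
    seg_add 64 15 16 0 28 10 h2 (seg_of_segL 64 15 16 10 10 _ K15R1 K15c3)
  have h4 : seg 64 15 16 0 (38 + 10) = true :=
    seg_add 64 15 16 0 38 10 h3 (seg_of_segL 64 15 16 20 10 _ K15R2 K15c4)
  have h5 : seg 64 15 16 0 (48 + 10) = true :=
    seg_add 64 15 16 0 48 10 h4 (seg_of_segL 64 15 16 30 10 _ K15R3 K15c5)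
  have h6 : seg 64 15 16 0 (58 + 10) = true :=
    seg_add 64 15 16 0 58 10 h5 (seg_of_segL 64 15 16 40 10 _ K15R4 K15c6)
  have h7 : seg 64 15 16 0 (68 + 10) = true :=
    seg_add 64 15 16 0 68 10 h6 (seg_of_segL 64 15 16 50 10 _ K15R5 K15c7)
  have h8 : seg 64 15 16 0 (78 + 10) = true :=
    seg_add 64 15 16 0 78 10 h7 (seg_of_segL 64 15 16 60 10 _ K15R6 K15c8)
  have h9 : seg 64 15 16 0 (88 + 10) = true :=
    seg_add 64 15 16 0 88 10 h8 (seg_of_segL 64 15 16 70 10 _ K15R7 K15c9)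
  have h10 : seg 64 15 16 0 (98 + 10) = true :=
    seg_add 64 15 16 0 98 10 h9 (seg_of_segL 64 15 16 80 10 _ K15R8 K15c10)
  have h11 : seg 64 15 16 0 (108 + 10) = true :=
    seg_add 64 15 16 0 108 10 h10 (seg_of_segL 64 15 16 90 10 _ K15R9 K15c11)
  have h12 : seg 64 15 16 0 (118 + 10) = true :=
    seg_add 64 15 16 0 118 10 h11 (seg_of_segL 64 15 16 100 10 _ K15R10 K15c12)
  have h13 : seg 64 15 16 0 (128 + 10) = true :=
    seg_add 64 15 16 0 128 10 h12 (seg_of_segL 64 15 16 110 10 _ K15R11 K15c13)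
  have h14 : seg 64 15 16 0 (138 + 10) = true :=
    seg_add 64 15 16 0 138 10 h13 (seg_of_segL 64 15 16 120 10 _ K15R12 K15c14)
  have h15 : seg 64 15 16 0 (148 + 10) = true :=
    seg_add 64 15 16 0 148 10 h14 (seg_of_segL 64 15 16 130 10 _ K15R13 K15c15)
  have h16 : seg 64 15 16 0 (158 + 10) = true :=
    seg_add 64 15 16 0 158 10 h15 (seg_of_segL 64 15 16 140 10 _ K15R14 K15c16)
  have h17 : seg 64 15 16 0 (168 + 10) = true :=
    seg_add 64 15 16 0 168 10 h16 (seg_of_segL 64 15 16 150 10 _ K15R15 K15c17)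
  have h18 : seg 64 15 16 0 (178 + 10) = true :=
    seg_add 64 15 16 0 178 10 h17 (seg_of_segL 64 15 16 160 10 _ K15R16 K15c18)
  have h19 : seg 64 15 16 0 (188 + 10) = true :=
    seg_add 64 15 16 0 188 10 h18 (seg_of_segL 64 15 16 170 10 _ K15R17 K15c19)
  have h20 : seg 64 15 16 0 (198 + 2) = true :=
    seg_add 64 15 16 0 198 2 h19 (seg_of_segL 64 15 16 180 2 _ K15R18 K15c20)
  exact h20

end Pool.Agent.UL
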