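import Pool.Agent.helper7.UL.Seg2

/-!
# Project ul (MP_62ffdf_lc): kernel check for o = 7, part
-/

set_option autoImplicit false
set_option maxRecDepth 1000000

namespace Pool.Agent.UL

theorem K7c8 : segL 80 7 24
    ([9223372036854775807, 0, 18446744073709551616, 19342577917847126998515712, 16140901064495857663, 0, 55340232221128654848], [19338035407118976021430272, 57646075230342348800, 6917529027641081856, 2305843009213693952, 19342665539881477118885888, 92233720368547758080, 0])
    76 10 = true := by decide +kernel

theorem K7c9 : segL 80 7 24
    ([144115188075855872, 19342803890462029940523008, 11529215046068469760, 576460752303423488, 19342810807991057581604864, 1152921504606846976, 19342812537373314491875328], [9223372036854775808, 7493989779944505344, 0, 0, 73786976294838206464, 1729382256910270464, 864691128455135232])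
    86 10 = true := by decide +kernel

theorem K7c10 : segL 80 7 24
    ([360287970189639680, 0, 19342806196305039154216960, 144115188075855872, 19342812969718878719442944, 144115188075855871, 0], [216172782113783808, 0, 144115188075855871, 0, 2305843009213693952, 19342810916077448638496768, 0])
    96 10 = true := by decide +kernel

theorem K7c11 : segL 80 7 24
    ([0, 18014398509481984, 19342813095819668285816832, 0, 2251799813685247, 0, 19342808502148048367910912], [103582791429521407, 0, 33776997205278720, 2251799813685248, 19342808502148048367910912, 4827858800541171712, 36028797018963967])
    106 10 = true := by decide +kernel

theorem K7c12 : segL 80 7 24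
    ([0, 1152921504606846976, 58546795155816447, 0, 140737488355327, 0, 19342813023762074247888896], [0, 140737488355328, 19342811961053299676807167, 0, 19342808502148048367910912, 4611721202799476736, 53515429947113471])
    116 10 = true := by decide +kernel

theorem K7c13 : segL 80 7 24
    ([0, 1152921504606846976, 19342811969919761443192832, 584342051651321856, 0, 0, 19342808578427767056498688], [2270377162148151296, 31665934879948800, 0, 557320453887098880, 0, 4785074604081152, 562949953421311])
    126 10 = true := by decide +kernel

theorem K7c14 : segL 80 7 24
    ([0, 0, 19342813095819668285816832, 9007199254740992, 19342813104826867540557824, 11258999068426239, 0], [72057594037927935, 0, 594475150812905471, 0, 2251799813685248, 19342813104826867540557824, 9007199254740992])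
    136 10 = true := by decide +kernel

theorem K7c15 : segL 80 7 24
    ([0, 0, 54043195528445952, 18155135997837311, 0, 17979214137393152, 0], [0, 1688849860263936, 0, 19342813095819668285816832, 9042383626829824, 8936830510563328, 35184372088831])
    146 10 = true := by decide +kernel

end Pool.Agent.UL
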