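import Pool.Agent.helper7.UL.Seg2

/-!
# Project ul (MP_62ffdf_lc): kernel check for o = 7, part
-/

set_option autoImplicit false
set_option maxRecDepth 1000000

namespace Pool.Agent.UL

theorem K7c16 : segL 80 7 24
    ([1125899906842624, 19342813112708579205316608, 137438953471, 0, 68719476735, 0, 9006340261281792], [274877906944, 274877906944, 19342813113833379600531456, 137438953472, 19342813096382343361331200, 343597383679, 0])
    156 10 = true := by decide +kernel

theorem K7c17 : segL 80 7 24
    ([0, 0, 2147483648, 19342813113834064647815168, 0, 0, 16106127360], [0, 4294967296, 0, 5368709120, 3221225472, 0, 33285996544])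
    166 10 = true := by decide +kernel

theorem K7c18 : segL 80 7 24
    ([8388608, 19342813113834066434588672, 8388608, 8388607, 0, 19342813113834060294127616, 0], [0, 0, 134217728, 19342813113834066677858303, 0, 67108863, 0])
    176 10 = true := by decide +kernel

theorem K7c19 : segL 80 7 24
    ([1048576, 19342813113834066794577920, 65535, 0, 50528256, 0, 2752512], [0, 1048576, 19342813113834066794446848, 65536, 11206656, 0, 12582912])
    186 10 = true := by decide +kernel

theorem K7c20 : segL 80 7 24
    ([786432, 335360, 640, 384, 0, 262144, 19342813113834066792546304], [8704, 511, 0, 262143, 0, 86016, 0])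
    196 10 = true := by decide +kernel

theorem K7c21 : segL 80 7 24
    ([240, 0, 205327, 0, 0, 6144, 0], [224, 0, 19342813113834066795036672, 327680, 10240, 0, 0])
    206 10 = true := by decide +kernel

theorem K7c22 : segL 80 7 24
    ([783, 0, 205327, 0, 0, 0, 2048], [19342813113834066795298016, 0, 19342813113834066795036672, 0, 10240, 6144, 0])
    216 4 = true := by decide +kernel

end Pool.Agent.UL
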