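import Pool.Agent.helper7.UL.K7a
import Pool.Agent.helper7.UL.K7b
import Pool.Agent.helper7.UL.K7c
import Pool.Agent.helper7.UL.K7r

/-!
# Project ul (MP_62ffdf_lc): kernel check for o = 7
-/

set_option autoImplicit false
set_option maxRecDepth 1000000

namespace Pool.Agent.UL

theorem K7 : chk 80 7 24 177 16 220 = true := by
  refine chk_of_seg 80 7 24 177 16 220 K7f K7p (by decide) ?_
  have h1 : seg 80 7 24 0 (10 + 10) = true :=
    seg_add 80 7 24 0 10 10 K7c0 K7c1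
  have h2 : seg 80 7 24 0 (20 + 6) = true :=
    seg_add 80 7 24 0 20 6 h1 K7c2
  have h3 : seg 80 7 24 0 (26 + 10) = true :=
    seg_add 80 7 24 0 26 10 h2 (seg_of_segL 80 7 24 0 10 _ K7R0 K7c3)
  have h4 : seg 80 7 24 0 (36 + 10) = true :=
    seg_add 80 7 24 0 36 10 h3 (seg_of_segL 80 7 24 10 10 _ K7R1 K7c4)
  have h5 : seg 80 7 24 0 (46 + 10) = true :=
    seg_add 80 7 24 0 46 10 h4 (seg_of_segL 80 7 24 20 10 _ K7R2 K7c5)
  have h6 : seg 80 7 24 0 (56 + 10) = true :=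
    seg_add 80 7 24 0 56 10 h5 (seg_of_segL 80 7 24 30 10 _ K7R3 K7c6)
  have h7 : seg 80 7 24 0 (66 + 10) = true :=
    seg_add 80 7 24 0 66 10 h6 (seg_of_segL 80 7 24 40 10 _ K7R4 K7c7)
  have h8 : seg 80 7 24 0 (76 + 10) = true :=
    seg_add 80 7 24 0 76 10 h7 (seg_of_segL 80 7 24 50 10 _ K7R5 K7c8)
  have h9 : seg 80 7 24 0 (86 + 10) = true :=
    seg_add 80 7 24 0 86 10 h8 (seg_of_segL 80 7 24 60 10 _ K7R6 K7c9)
  have h10 : seg 80 7 24 0 (96 + 10) = true :=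
    seg_add 80 7 24 0 96 10 h9 (seg_of_segL 80 7 24 70 10 _ K7R7 K7c10)
  have h11 : seg 80 7 24 0 (106 + 10) = true :=
    seg_add 80 7 24 0 106 10 h10 (seg_of_segL 80 7 24 80 10 _ K7R8 K7c11)
  have h12 : seg 80 7 24 0 (116 + 10) = true :=
    seg_add 80 7 24 0 116 10 h11 (seg_of_segL 80 7 24 90 10 _ K7R9 K7c12)
  have h13 : seg 80 7 24 0 (126 + 10) = true :=
    seg_add 80 7 24 0 126 10 h12 (seg_of_segL 80 7 24 100 10 _ K7R10 K7c13)
  have h14 : seg 80 7 24 0 (136 + 10) = true :=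
    seg_add 80 7 24 0 136 10 h13 (seg_of_segL 80 7 24 110 10 _ K7R11 K7c14)
  have h15 : seg 80 7 24 0 (146 + 10) = true :=
    seg_add 80 7 24 0 146 10 h14 (seg_of_segL 80 7 24 120 10 _ K7R12 K7c15)
  have h16 : seg 80 7 24 0 (156 + 10) = true :=
    seg_add 80 7 24 0 156 10 h15 (seg_of_segL 80 7 24 130 10 _ K7R13 K7c16)
  have h17 : seg 80 7 24 0 (166 + 10) = true :=
    seg_add 80 7 24 0 166 10 h16 (seg_of_segL 80 7 24 140 10 _ K7R14 K7c17)
  have h18 : seg 80 7 24 0 (176 + 10) = true :=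
    seg_add 80 7 24 0 176 10 h17 (seg_of_segL 80 7 24 150 10 _ K7R15 K7c18)
  have h19 : seg 80 7 24 0 (186 + 10) = true :=
    seg_add 80 7 24 0 186 10 h18 (seg_of_segL 80 7 24 160 10 _ K7R16 K7c19)
  have h20 : seg 80 7 24 0 (196 + 10) = true :=
    seg_add 80 7 24 0 196 10 h19 (seg_of_segL 80 7 24 170 10 _ K7R17 K7c20)
  have h21 : seg 80 7 24 0 (206 + 10) = true :=
    seg_add 80 7 24 0 206 10 h20 (seg_of_segL 80 7 24 180 10 _ K7R18 K7c21)
  have h22 : seg 80 7 24 0 (216 + 4) = true :=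
    seg_add 80 7 24 0 216 4 h21 (seg_of_segL 80 7 24 190 4 _ K7R19 K7c22)
  exact h22

end Pool.Agent.UL
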