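import Pool.Agent.helper7.UL.Seg2

/-!
# Project ul (MP_62ffdf_lc): kernel check for o = 9, part
-/

set_option autoImplicit false
set_option maxRecDepth 1000000

namespace Pool.Agent.UL

theorem K9c60 : segL 152 9 24
    ([0, 33554432, 91343852333181432387730302044767688728428675072, 109051904, 27262976, 0, 6291456, 2097152, 91343852333181432387730302044767688728487395328], [117178368, 0, 8126464, 0, 25165824, 10485759, 0, 13107200, 3145728])
    474 8 = true := by decide +kernel

theorem K9c61 : segL 152 9 24
    ([0, 34078719, 0, 8388608, 91343852333181432387730302044767688728462753791, 0, 0, 2097152, 91343852333181432387730302044767688728480055296], [4194304, 91343852333181432387730302044767688728491589632, 0, 0, 91343852333181432387730302044767688728461705216, 0, 34078720, 18350080, 0])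
    482 8 = true := by decide +kernel

theorem K9c62 : segL 152 9 24
    ([2097151, 0, 1835008, 262144, 17039359, 0, 0, 8388607, 0], [91343852333181432387730302044767688728491851776, 2359296, 0, 16777216, 91343852333181432387730302044767688728479268863, 0, 33554432, 91343852333181432387730302044767688728476909568, 0])
    490 8 = true := by decide +kernel

theorem K9c63 : segL 152 9 24
    ([91343852333181432387730302044767688728493686784, 2359296, 2097151, 0, 2031616, 0, 131072, 91343852333181432387730302044767688728495652864, 0], [786432, 0, 91343852333181432387730302044767688728493686784, 2162688, 1835008, 327680, 0, 6225920, 65536])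
    498 8 = true := by decide +kernel

theorem K9c64 : segL 152 9 24
    ([91343852333181432387730302044767688728493686784, 2359296, 1835008, 266239, 0, 4095, 0, 1048575, 0], [786432, 0, 4096, 91343852333181432387730302044767688728495775744, 4096, 91343852333181432387730302044767688728494735360, 1048576, 91343852333181432387730302044767688728490475520, 65536])
    506 8 = true := by decide +kernel

theorem K9c65 : segL 152 9 24
    ([91343852333181432387730302044767688728495292544, 128, 91343852333181432387730302044767688728495652991, 0, 2048, 91343852333181432387730302044767688728494864384, 0, 0, 261120], [0, 131072, 91343852333181432387730302044767688728495693824, 7936, 0, 989184, 0, 262144, 262144])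
    514 8 = true := by decide +kernel

theorem K9c66 : segL 152 9 24
    ([91343852333181432387730302044767688728495292544, 128, 91343852333181432387730302044767688728495652991, 0, 2048, 948287, 0, 0, 261120], [0, 131072, 91343852333181432387730302044767688728495693824, 7999, 0, 91343852333181432387730302044767688728494776319, 0, 262144, 262144])
    522 8 = true := by decide +kernel

theorem K9c67 : segL 152 9 24
    ([91343852333181432387730302044767688728495292544, 128, 91343852333181432387730302044767688728495652991, 0, 2048, 91343852333181432387730302044767688728494864384, 0, 0, 261120], [0, 131072, 91343852333181432387730302044767688728495693824, 7999, 0, 991168, 0, 262144, 262144])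
    530 4 = true := by decide +kernel

end Pool.Agent.UL
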