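import Pool.Agent.helper7.UL.K9a
import Pool.Agent.helper7.UL.K9b
import Pool.Agent.helper7.UL.K9c
import Pool.Agent.helper7.UL.K9d
import Pool.Agent.helper7.UL.K9e
import Pool.Agent.helper7.UL.K9f
import Pool.Agent.helper7.UL.K9r

/-!
# Project ul (MP_62ffdf_lc): kernel check for o = 9
-/

set_option autoImplicit false
set_option maxRecDepth 1000000

namespace Pool.Agent.UL

theorem K9 : chk 152 9 24 491 16 534 = true := by
  refine chk_of_seg 152 9 24 491 16 534 K9f K9p (by decide) ?_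
  have h1 : seg 152 9 24 0 (8 + 8) = true :=
    seg_add 152 9 24 0 8 8 K9c0 K9c1
  have h2 : seg 152 9 24 0 (16 + 8) = true :=
    seg_add 152 9 24 0 16 8 h1 K9c2
  have h3 : seg 152 9 24 0 (24 + 2) = true :=
    seg_add 152 9 24 0 24 2 h2 K9c3
  have h4 : seg 152 9 24 0 (26 + 8) = true :=
    seg_add 152 9 24 0 26 8 h3 (seg_of_segL 152 9 24 0 8 _ K9R0 K9c4)
  have h5 : seg 152 9 24 0 (34 + 8) = true :=
    seg_add 152 9 24 0 34 8 h4 (seg_of_segL 152 9 24 8 8 _ K9R1 K9c5)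
  have h6 : seg 152 9 24 0 (42 + 8) = true :=
    seg_add 152 9 24 0 42 8 h5 (seg_of_segL 152 9 24 16 8 _ K9R2 K9c6)
  have h7 : seg 152 9 24 0 (50 + 8) = true :=
    seg_add 152 9 24 0 50 8 h6 (seg_of_segL 152 9 24 24 8 _ K9R3 K9c7)
  have h8 : seg 152 9 24 0 (58 + 8) = true :=
    seg_add 152 9 24 0 58 8 h7 (seg_of_segL 152 9 24 32 8 _ K9R4 K9c8)
  have h9 : seg 152 9 24 0 (66 + 8) = true :=
    seg_add 152 9 24 0 66 8 h8 (seg_of_segL 152 9 24 40 8 _ K9R5 K9c9)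
  have h10 : seg 152 9 24 0 (74 + 8) = true :=
    seg_add 152 9 24 0 74 8 h9 (seg_of_segL 152 9 24 48 8 _ K9R6 K9c10)
  have h11 : seg 152 9 24 0 (82 + 8) = true :=
    seg_add 152 9 24 0 82 8 h10 (seg_of_segL 152 9 24 56 8 _ K9R7 K9c11)
  have h12 : seg 152 9 24 0 (90 + 8) = true :=
    seg_add 152 9 24 0 90 8 h11 (seg_of_segL 152 9 24 64 8 _ K9R8 K9c12)
  have h13 : seg 152 9 24 0 (98 + 8) = true :=
    seg_add 152 9 24 0 98 8 h12 (seg_of_segL 152 9 24 72 8 _ K9R9 K9c13)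
  have h14 : seg 152 9 24 0 (106 + 8) = true :=
    seg_add 152 9 24 0 106 8 h13 (seg_of_segL 152 9 24 80 8 _ K9R10 K9c14)
  have h15 : seg 152 9 24 0 (114 + 8) = true :=
    seg_add 152 9 24 0 114 8 h14 (seg_of_segL 152 9 24 88 8 _ K9R11 K9c15)
  have h16 : seg 152 9 24 0 (122 + 8) = true :=
    seg_add 152 9 24 0 122 8 h15 (seg_of_segL 152 9 24 96 8 _ K9R12 K9c16)
  have h17 : seg 152 9 24 0 (130 + 8) = true :=
    seg_add 152 9 24 0 130 8 h16 (seg_of_segL 152 9 24 104 8 _ K9R13 K9c17)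
  have h18 : seg 152 9 24 0 (138 + 8) = true :=
    seg_add 152 9 24 0 138 8 h17 (seg_of_segL 152 9 24 112 8 _ K9R14 K9c18)
  have h19 : seg 152 9 24 0 (146 + 8) = true :=
    seg_add 152 9 24 0 146 8 h18 (seg_of_segL 152 9 24 120 8 _ K9R15 K9c19)
  have h20 : seg 152 9 24 0 (154 + 8) = true :=
    seg_add 152 9 24 0 154 8 h19 (seg_of_segL 152 9 24 128 8 _ K9R16 K9c20)
  have h21 : seg 152 9 24 0 (162 + 8) = true :=
    seg_add 152 9 24 0 162 8 h20 (seg_of_segL 152 9 24 136 8 _ K9R17 K9c21)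
  have h22 : seg 152 9 24 0 (170 + 8) = true :=
    seg_add 152 9 24 0 170 8 h21 (seg_of_segL 152 9 24 144 8 _ K9R18 K9c22)
  have h23 : seg 152 9 24 0 (178 + 8) = true :=
    seg_add 152 9 24 0 178 8 h22 (seg_of_segL 152 9 24 152 8 _ K9R19 K9c23)
  have h24 : seg 152 9 24 0 (186 + 8) = true :=
    seg_add 152 9 24 0 186 8 h23 (seg_of_segL 152 9 24 160 8 _ K9R20 K9c24)
  have h25 : seg 152 9 24 0 (194 + 8) = true :=
    seg_add 152 9 24 0 194 8 h24 (seg_of_segL 152 9 24 168 8 _ K9R21 K9c25)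
  have h26 : seg 152 9 24 0 (202 + 8) = true :=
    seg_add 152 9 24 0 202 8 h25 (seg_of_segL 152 9 24 176 8 _ K9R22 K9c26)
  have h27 : seg 152 9 24 0 (210 + 8) = true :=
    seg_add 152 9 24 0 210 8 h26 (seg_of_segL 152 9 24 184 8 _ K9R23 K9c27)
  have h28 : seg 152 9 24 0 (218 + 8) = true :=
    seg_add 152 9 24 0 218 8 h27 (seg_of_segL 152 9 24 192 8 _ K9R24 K9c28)
  have h29 : seg 152 9 24 0 (226 + 8) = true :=
    seg_add 152 9 24 0 226 8 h28 (seg_of_segL 152 9 24 200 8 _ K9R25 K9c29)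
  have h30 : seg 152 9 24 0 (234 + 8) = true :=
    seg_add 152 9 24 0 234 8 h29 (seg_of_segL 152 9 24 208 8 _ K9R26 K9c30)
  have h31 : seg 152 9 24 0 (242 + 8) = true :=
    seg_add 152 9 24 0 242 8 h30 (seg_of_segL 152 9 24 216 8 _ K9R27 K9c31)
  have h32 : seg 152 9 24 0 (250 + 8) = true :=
    seg_add 152 9 24 0 250 8 h31 (seg_of_segL 152 9 24 224 8 _ K9R28 K9c32)
  have h33 : seg 152 9 24 0 (258 + 8) = true :=
    seg_add 152 9 24 0 258 8 h32 (seg_of_segL 152 9 24 232 8 _ K9R29 K9c33)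
  have h34 : seg 152 9 24 0 (266 + 8) = true :=
    seg_add 152 9 24 0 266 8 h33 (seg_of_segL 152 9 24 240 8 _ K9R30 K9c34)
  have h35 : seg 152 9 24 0 (274 + 8) = true :=
    seg_add 152 9 24 0 274 8 h34 (seg_of_segL 152 9 24 248 8 _ K9R31 K9c35)
  have h36 : seg 152 9 24 0 (282 + 8) = true :=
    seg_add 152 9 24 0 282 8 h35 (seg_of_segL 152 9 24 256 8 _ K9R32 K9c36)
  have h37 : seg 152 9 24 0 (290 + 8) = true :=
    seg_add 152 9 24 0 290 8 h36 (seg_of_segL 152 9 24 264 8 _ K9R33 K9c37)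
  have h38 : seg 152 9 24 0 (298 + 8) = true :=
    seg_add 152 9 24 0 298 8 h37 (seg_of_segL 152 9 24 272 8 _ K9R34 K9c38)
  have h39 : seg 152 9 24 0 (306 + 8) = true :=
    seg_add 152 9 24 0 306 8 h38 (seg_of_segL 152 9 24 280 8 _ K9R35 K9c39)
  have h40 : seg 152 9 24 0 (314 + 8) = true :=
    seg_add 152 9 24 0 314 8 h39 (seg_of_segL 152 9 24 288 8 _ K9R36 K9c40)
  have h41 : seg 152 9 24 0 (322 + 8) = true :=
    seg_add 152 9 24 0 322 8 h40 (seg_of_segL 152 9 24 296 8 _ K9R37 K9c41)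
  have h42 : seg 152 9 24 0 (330 + 8) = true :=
    seg_add 152 9 24 0 330 8 h41 (seg_of_segL 152 9 24 304 8 _ K9R38 K9c42)
  have h43 : seg 152 9 24 0 (338 + 8) = true :=
    seg_add 152 9 24 0 338 8 h42 (seg_of_segL 152 9 24 312 8 _ K9R39 K9c43)
  have h44 : seg 152 9 24 0 (346 + 8) = true :=
    seg_add 152 9 24 0 346 8 h43 (seg_of_segL 152 9 24 320 8 _ K9R40 K9c44)
  have h45 : seg 152 9 24 0 (354 + 8) = true :=
    seg_add 152 9 24 0 354 8 h44 (seg_of_segL 152 9 24 328 8 _ K9R41 K9c45)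
  have h46 : seg 152 9 24 0 (362 + 8) = true :=
    seg_add 152 9 24 0 362 8 h45 (seg_of_segL 152 9 24 336 8 _ K9R42 K9c46)
  have h47 : seg 152 9 24 0 (370 + 8) = true :=
    seg_add 152 9 24 0 370 8 h46 (seg_of_segL 152 9 24 344 8 _ K9R43 K9c47)
  have h48 : seg 152 9 24 0 (378 + 8) = true :=
    seg_add 152 9 24 0 378 8 h47 (seg_of_segL 152 9 24 352 8 _ K9R44 K9c48)
  have h49 : seg 152 9 24 0 (386 + 8) = true :=
    seg_add 152 9 24 0 386 8 h48 (seg_of_segL 152 9 24 360 8 _ K9R45 K9c49)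
  have h50 : seg 152 9 24 0 (394 + 8) = true :=
    seg_add 152 9 24 0 394 8 h49 (seg_of_segL 152 9 24 368 8 _ K9R46 K9c50)
  have h51 : seg 152 9 24 0 (402 + 8) = true :=
    seg_add 152 9 24 0 402 8 h50 (seg_of_segL 152 9 24 376 8 _ K9R47 K9c51)
  have h52 : seg 152 9 24 0 (410 + 8) = true :=
    seg_add 152 9 24 0 410 8 h51 (seg_of_segL 152 9 24 384 8 _ K9R48 K9c52)
  have h53 : seg 152 9 24 0 (418 + 8) = true :=
    seg_add 152 9 24 0 418 8 h52 (seg_of_segL 152 9 24 392 8 _ K9R49 K9c53)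
  have h54 : seg 152 9 24 0 (426 + 8) = true :=
    seg_add 152 9 24 0 426 8 h53 (seg_of_segL 152 9 24 400 8 _ K9R50 K9c54)
  have h55 : seg 152 9 24 0 (434 + 8) = true :=
    seg_add 152 9 24 0 434 8 h54 (seg_of_segL 152 9 24 408 8 _ K9R51 K9c55)
  have h56 : seg 152 9 24 0 (442 + 8) = true :=
    seg_add 152 9 24 0 442 8 h55 (seg_of_segL 152 9 24 416 8 _ K9R52 K9c56)
  have h57 : seg 152 9 24 0 (450 + 8) = true :=
    seg_add 152 9 24 0 450 8 h56 (seg_of_segL 152 9 24 424 8 _ K9R53 K9c57)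
  have h58 : seg 152 9 24 0 (458 + 8) = true :=
    seg_add 152 9 24 0 458 8 h57 (seg_of_segL 152 9 24 432 8 _ K9R54 K9c58)
  have h59 : seg 152 9 24 0 (466 + 8) = true :=
    seg_add 152 9 24 0 466 8 h58 (seg_of_segL 152 9 24 440 8 _ K9R55 K9c59)
  have h60 : seg 152 9 24 0 (474 + 8) = true :=
    seg_add 152 9 24 0 474 8 h59 (seg_of_segL 152 9 24 448 8 _ K9R56 K9c60)
  have h61 : seg 152 9 24 0 (482 + 8) = true :=
    seg_add 152 9 24 0 482 8 h60 (seg_of_segL 152 9 24 456 8 _ K9R57 K9c61)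
  have h62 : seg 152 9 24 0 (490 + 8) = true :=
    seg_add 152 9 24 0 490 8 h61 (seg_of_segL 152 9 24 464 8 _ K9R58 K9c62)
  have h63 : seg 152 9 24 0 (498 + 8) = true :=
    seg_add 152 9 24 0 498 8 h62 (seg_of_segL 152 9 24 472 8 _ K9R59 K9c63)
  have h64 : seg 152 9 24 0 (506 + 8) = true :=
    seg_add 152 9 24 0 506 8 h63 (seg_of_segL 152 9 24 480 8 _ K9R60 K9c64)
  have h65 : seg 152 9 24 0 (514 + 8) = true :=
    seg_add 152 9 24 0 514 8 h64 (seg_of_segL 152 9 24 488 8 _ K9R61 K9c65)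
  have h66 : seg 152 9 24 0 (522 + 8) = true :=
    seg_add 152 9 24 0 522 8 h65 (seg_of_segL 152 9 24 496 8 _ K9R62 K9c66)
  have h67 : seg 152 9 24 0 (530 + 4) = true :=
    seg_add 152 9 24 0 530 4 h66 (seg_of_segL 152 9 24 504 4 _ K9R63 K9c67)
  exact h67

end Pool.Agent.UL
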