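import Pool.Agent.helper32.UL.BDN
import Pool.Agent.helper45.UL.CHJ
import Pool.Agent.helper76.UL.CRD
import Pool.Agent.helper75.UL.CVL
import Pool.Agent.helper3.UL.DLT
import Pool.Agent.helper79.UL.DND
import Pool.Agent.helper40.UL.EVN
import Pool.Agent.helper81.UL.EXT
import Pool.Agent.helper79.UL.GAP
import Pool.Agent.helper77.UL.HCV
import Pool.Agent.helper71.UL.HIT
import Pool.Agent.helper77.UL.MCC
import Pool.Agent.helper32.UL.NAT
import Pool.Agent.helper31.UL.NFN
import Pool.Agent.helper40.UL.NIN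
import Pool.Agent.helper71.UL.NPL
import Pool.Agent.helper77.UL.NSL
import Pool.Agent.helper45.UL.NTH
import Pool.Agent.helper34.UL.NTR
import Pool.Agent.helper2.UL.NUN
import Pool.Agent.helper35.UL.OEV
import Pool.Agent.helper77.UL.PCV
import Pool.Agent.helper11.UL.PRT
import Pool.Agent.helper11.UL.REC
import Pool.Agent.helper31.UL.REP
import Pool.Agent.helper32.UL.ROW
import Pool.Agent.helper71.UL.RUN
import Pool.Agent.helper17.UL.SHW
import Pool.Agent.helper45.UL.SMA
import Pool.Agent.helper77.UL.STP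
import Pool.Agent.helper63.UL.TRC
import Pool.Agent.helper25.UL.TWO
import Pool.Agent.helper11.UL.ULM
import Pool.Agent.helper40.UL.ULS
import Pool.Agent.helper31.UL.UPD
import Pool.Agent.helper79.UL.WID
import Pool.Agent.helper87.UL.WIN

/-!
# Project ul (MP_62ffdf_lc): assembly
-/

set_option autoImplicit false

namespace Pool.Agent.UL

theorem asmTRC : TRC_stmt := TRC CRD (REC (STP UPD DND) SHW ROW EXT WIN)

theorem asmHCV : HCV_stmt := HCV (PCV CVL BDN (WID BDN))

theorem asmRUN : RUN_stmt := RUN ROW asmHCV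

theorem asmMCC : MCC_stmt := MCC asmRUN (CHJ asmHCV (TWO EXT) (HIT CVL BDN (WID BDN) EXT)) (TWO EXT)

theorem asmEVN : EVN_stmt := EVN OEV CRD asmRUN asmTRC asmMCC (SMA EXT) (REP CRD) (DLT CRD)

theorem asmULM : ULM_stmt := ULM ULS GAP OEV asmRUN asmTRC asmEVN (PRT CRD)

theorem asmNFN : NFN_stmt := NFN NSL (NAT NUN NPL) NTR NTH NIN

end Pool.Agent.UL
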