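import Pool.Agent.helper7.UL.Asm

/-!
# Project ul (MP_62ffdf_lc): the structure theorem with the explicit even terms
-/

set_option autoImplicit false

namespace Pool.Agent.UL

open Finset

theorem asmMain (R o X S P N h : ℕ) (hchk : chk R o X S P N = true) (hR : 5 * R + 20 ≤ h + 1)
    (hoh : o < h) (hcop : Nat.Coprime o h) :
    ∃ (u : ℕ → ℕ) (K Q D : ℕ), IsUlam o (2 * h) u ∧ (∀ v, IsUlam o (2 * h) v → v = u) ∧
      StrictMono u ∧
      (∀ x, (∃ n, u n = x) ∧ Even x ↔
        (∃ k ≤ h, x = 2 * h + 2 * k * o) ∨ x = (4 * h + 4) * o) ∧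
      {x | (∃ n, u n = x) ∧ Even x}.ncard = h + 2 ∧
      0 < Q ∧ 0 < D ∧ (∀ n, K ≤ n → u (n + Q) = u n + D) ∧ UP (Set.range u) := by
  obtain ⟨hTab, hper, hP, -, -, -⟩ := asmRUN R o X S P N hchk
  have ho7 : 7 ≤ o := hTab.ho
  have hW : h + 1 - 1 = h := by omega
  obtain ⟨hT0, hTrec⟩ := asmTRC R o (h + 1) hTab (by omega) (by omega) (by rw [hW]; exact hcop)
  rw [hW] at hTrec
  obtain ⟨o1, o2, -, o4, o5⟩ := OEV o h (Tset R o (h + 1)) hTab.hodd hoh hT0 hTrec
  have hev := asmEVN R o X S P N (h + 1) hchk (by omega) (by omega) (by rw [hW]; exact hcop)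
  rw [hW] at hev
  have hprt := (PRT CRD) R o (h + 1) S P hTab (by omega) (by omega) (by rw [hW]; exact hcop) hper
  rw [hW] at hprt
  set V : Set ℕ := Vset o h (Tset R o (h + 1)) with hV
  have hrec : ∀ n, 2 * h < n → (n ∈ V ↔ ∃! p, Rep V n p) := by
    intro n hn
    rcases Nat.even_or_odd' n with ⟨k, rfl | rfl⟩
    · exact hev k (by omega)
    · exact o2 (2 * k + 1) hn (by omega)
  obtain ⟨hinf, huniq⟩ := ULS o (2 * h) V (by omega) (by omega) o1 hrec
  have hD : 0 < 2 * (o * P * (h + 1)) := by positivity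
  obtain ⟨k₀, Q, hQ, hgap⟩ := GAP V (2 * o * (S + 5) * (h + 1) + o) (2 * (o * P * (h + 1))) hinf hD hprt
  have hrange : Set.range (Nat.nth (· ∈ V)) = V := Nat.range_nth_of_infinite hinf
  have hmem : ∀ x, (∃ n, Nat.nth (· ∈ V) n = x) ↔ x ∈ V := by
    intro x
    rw [← Set.mem_range, hrange]
  refine ⟨Nat.nth (· ∈ V), k₀, Q, 2 * (o * P * (h + 1)),
    (huniq _).2 rfl, fun v hv => (huniq v).1 hv, Nat.nth_strictMono hinf, ?_, ?_, hQ, hD, hgap,
    2 * o * (S + 5) * (h + 1) + o, 2 * (o * P * (h + 1)), hD, ?_⟩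
  · intro x
    rw [hmem]
    constructor
    · rintro ⟨hx, hx2⟩
      obtain ⟨n, rfl⟩ := hx2.two_dvd
      rw [o4] at hx
      simp only [Del, mem_insert, mem_image, mem_range] at hx
      rcases hx with rfl | ⟨k, hk, rfl⟩
      · right; ring
      · left; exact ⟨k, by omega, by ring⟩
    · rintro (⟨k, hk, rfl⟩ | rfl)
      · refine ⟨?_, by rw [Nat.even_iff, mul_assoc]; omega⟩
        have : 2 * h + 2 * k * o = 2 * (h + k * o) := by ring
        rw [this, o4]
        simp only [Del, mem_insert, mem_image, mem_range]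
        exact Or.inr ⟨k, by omega, rfl⟩
      · have : (4 * h + 4) * o = 2 * (2 * (h + 1) * o) := by ring
        rw [this]
        refine ⟨?_, even_two_mul _⟩
        rw [o4]
        exact mem_insert_self _ _
  · have : {x | (∃ n, Nat.nth (· ∈ V) n = x) ∧ Even x} = {x | x ∈ V ∧ x % 2 = 0} := by
      ext x
      simp only [Set.mem_ofPred_eq, hmem, Nat.even_iff]
    rw [this]
    exact o5
  · intro x hx
    rw [hrange]
    exact hprt x hx

end Pool.Agent.UL
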