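import Mathlib

/-!
# Ulam sequences `U(o, e)`, `o` odd fixed, `e` even and large: definitions

Project ul (MP_62ffdf_lc).
-/

set_option autoImplicit false

namespace Pool.Agent.UL

/-! ## Ulam sequences -/

/-- `u 0, u 1, ...` is the Ulam sequence `U(a, b)`: `u 0 = a`, `u 1 = b` and for `n ≥ 2` the term `u n`
is the least integer greater than `u (n - 1)` which can be written as `u i + u j` with `i < j < n` in
exactly one way -/
def IsUlam (a b : ℕ) (u : ℕ → ℕ) : Prop :=
  u 0 = a ∧ u 1 = b ∧ ∀ n, 2 ≤ n →
    IsLeast {m | u (n - 1) < m ∧ ∃! p : ℕ × ℕ, p.1 < p.2 ∧ p.2 < n ∧ u p.1 + u p.2 = m} (u n)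

/-- the representations of `n` as a sum of two different elements of `V` -/
def Rep (V : Set ℕ) (n : ℕ) (p : ℕ × ℕ) : Prop := p.1 < p.2 ∧ p.1 ∈ V ∧ p.2 ∈ V ∧ p.1 + p.2 = n

/-- the half of the even terms: `h + k o`, `0 ≤ k ≤ h`, and `2 (h + 1) o`, where `e = 2 h` -/
def Del (o h : ℕ) : Finset ℕ := insert (2 * (h + 1) * o) ((Finset.range (h + 1)).image fun k => h + k * o)

/-! ## Words

A word is a natural number with the bits `0, ..., R + 3`, the bit `b` belongs to the offset
`b - R`; the bits `0` and `R + 3` are continued to the left and to the right. -/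

/-- the value of the word `c` at the offset `B` -/
def wv (R c : ℕ) (B : ℤ) : Bool :=
  if B < -(R : ℤ) then c.testBit 0 else if 3 < B then c.testBit (R + 3) else c.testBit (B + R).toNat

/-- all bits below `R + 4` -/
def full (R : ℕ) : ℕ := 2 ^ (R + 4) - 1

/-- the positions with at least one bit of `c` strictly above -/
def up1 (c : ℕ) : ℕ := if c = 0 then 0 else 2 ^ c.log2 - 1

/-- the positions with at least two bits of `c` strictly above -/
def up2 (c : ℕ) : ℕ := up1 (c - 2 ^ c.log2)

/-- the positions with at least one bit of `c` at the position or below -/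
def dn1 (R c : ℕ) : ℕ := if c = 0 then 0 else full R - ((c ^^^ (c &&& (c - 1))) - 1)

/-- the positions with at least two bits of `c` at the position or below -/
def dn2 (R c : ℕ) : ℕ := dn1 R (c &&& (c - 1))

/-- the rule: from the words of the previous column at the macro times `A - 1` and `A` and the word of
the column at the macro time `A - 2` -/
def step (R cm c0 c2 : ℕ) : ℕ :=
  if cm.testBit (R + 3) then 0 else
    let u := up1 cm
    let d := dn1 R c0
    let z := (u ^^^ d ^^^ c2) ^^^ (u &&& d &&& c2)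
    z ^^^ (z &&& (up2 cm ||| dn2 R c0))

/-- shift of the offset by one: `wv (sh c) B = wv c (B + 1)` -/
def sh (R c : ℕ) : ℕ := (c >>> 1) ||| (c &&& 2 ^ (R + 3))

/-- the further words of a row from the row before (`p`, without its last entry) and the row two
before (`q`), `cur` the last computed word -/
def rowTail (R : ℕ) : ℕ → List ℕ → List ℕ → List ℕ
  | cur, p :: ps, q :: qs => let n := step R p cur q; n :: rowTail R n ps qs
  | _, _, _ => []

/-- the row of the macro time `A` from the rows `p` at `A - 1` and `q` at `A - 2` -/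
def nextRow (R : ℕ) (p q : List ℕ) : List ℕ :=
  let n := step R (sh R (q.getLastD 0)) (sh R (p.getLastD 0)) (q.headD 0)
  n :: rowTail R n p (q.drop 1)

/-- the row of the macro time `0` -/
def row0 (R o : ℕ) : List ℕ :=
  2 ^ R :: rowTail R (2 ^ R) (List.replicate (o - 1) 0) (List.replicate (o - 1) 0)

/-- the rows `A` and `A - 1` -/
def rows (R o : ℕ) : ℕ → List ℕ × List ℕ
  | 0 => (row0 R o, List.replicate o 0)
  | A + 1 => let r := rows R o A; (nextRow R r.1 r.2, r.1)

/-- the word of the column `j` at the macro time `A` -/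
def cell (R o j A : ℕ) : ℕ := (rows R o A).1.getD j 0

/-! ## The check of the representations

For the even numbers the macro time `A`, the column `J` and the offsets `B = -2R-1, ..., 6` are
coded by the bits `B + 2R + 1` of a mask. -/

/-- a word with the data used in the check: left bit, right bit, the numbers `R + 3 - b` for some of its
bits `b`, the word on the offsets `-2R-4, ..., R+7`, the same without the bits in the list, the
numbers `R + 3 - b` for all its bits -/
structure Wd where
  l : Bool
  r : Bool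
  bs : List ℕ
  wd : ℕ
  wo : ℕ
  al : List ℕ

/-- the numbers `R + 3 - b` for the bits `b` of `c`, from the highest on -/
def bitsDown (R : ℕ) : ℕ → ℕ → List ℕ
  | 0, _ => []
  | k + 1, c => if c = 0 then [] else (R + 3 - c.log2) :: bitsDown R k (c - 2 ^ c.log2)

/-- some of the bits of `c` -/
def ess (R c : ℕ) : ℕ :=
  let x := if c.testBit 0 then full R ^^^ c else c
  let y := if c.testBit (R + 3) then full R ^^^ c else c
  c &&& (2 ^ (y.log2 + 4) - 2 ^ ((x ^^^ (x &&& (x - 1))).log2 - 3))

/-- the word on the offsets `-2R-4, ..., R+7` -/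
def wide (R c : ℕ) : ℕ :=
  (c <<< (R + 4)) ||| (if c.testBit 0 then full R else 0) |||
    (if c.testBit (R + 3) then full R <<< (2 * R + 8) else 0)

def mkW (R c : ℕ) : Wd :=
  ⟨c.testBit 0, c.testBit (R + 3), bitsDown R (R + 4) (ess R c), wide R c,
    wide R c ^^^ (ess R c <<< (R + 4)), bitsDown R (R + 4) c⟩

/-- all the bits of a mask -/
def fm (R : ℕ) : ℕ := 2 ^ (2 * R + 8) - 1

/-- accumulator: masks of the offsets with at least one, at least two representations -/
def covL (M D ε : ℕ) : List ℕ → ℕ × ℕ → ℕ × ℕ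
  | [], acc => acc
  | s :: t, acc =>
    let v := (D >>> (s + ε)) &&& M
    covL M D ε t (acc.1 ||| v, acc.2 ||| (acc.1 &&& v))

/-- the same for two elements of the same cell, the first with the smaller offset -/
def selfL (R M D ε : ℕ) : List ℕ → ℕ × ℕ → ℕ × ℕ
  | [], acc => acc
  | s :: t, acc =>
    let k := 2 * (R + 3 - s) + 2 - ε
    let v := (((D >>> (s + ε)) &&& M) >>> k) <<< k
    selfL R M D ε t (acc.1 ||| v, acc.2 ||| (acc.1 &&& v))

def selfCov (R M ε : ℕ) (c : Wd) (acc : (ℕ × ℕ) × ℕ) : (ℕ × ℕ) × ℕ :=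
  (selfL R M c.wd ε c.bs acc.1, acc.2 + (if c.r then c.bs.length else 0))

def pairCov (M ε : ℕ) (c d : Wd) (acc : (ℕ × ℕ) × ℕ) : (ℕ × ℕ) × ℕ :=
  let a1 := covL M d.wd ε c.bs acc.1
  let a2 := covL M c.wo ε d.bs a1
  let a3 := if (c.r && d.l) || (c.l && d.r) then (M, M) else a2
  (a3, acc.2 + (if d.r then c.bs.length else 0) + (if c.r then d.bs.length else 0))

/-- the cells `(j₁, A₁)`, `j₁` increasing, against the cells `(j₂, A₂)`, `j₂` decreasing -/
def rowCov (R A1 A2 ε : ℕ) : ℕ → ℕ → List Wd → List Wd → (ℕ × ℕ) × ℕ → (ℕ × ℕ) × ℕ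
  | j1, j2, c :: cs, d :: ds, acc =>
    rowCov R A1 A2 ε (j1 + 1) (j2 - 1) cs ds
      (if A1 < A2 || (A1 == A2 && j1 < j2) then pairCov (fm R) ε c d acc
        else if A1 == A2 && j1 == j2 then selfCov R (fm R) ε c acc else acc)
  | _, _, _, _, acc => acc

/-- all `A₁`, from the rows `A₁, A₁ + 1, ...` and `A - A₁, A - A₁ - 1, ...` -/
def headCov (R o A J : ℕ) :
    ℕ → List (List Wd) → List (List Wd) → (ℕ × ℕ) × ℕ → (ℕ × ℕ) × ℕ
  | A1, h :: hs, ra :: rb :: rs, acc =>
    if acc.1.2 == fm R && 2 ≤ acc.2 then acc else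
    let acc1 := if A1 ≤ A then
      rowCov R A1 (A - A1) 0 0 J (h.take (J + 1)) (ra.take (J + 1)).reverse acc else acc
    let acc2 := if A1 + 1 ≤ A then
      rowCov R A1 (A - A1 - 1) 1 (J + 1) (o - 1) (h.drop (J + 1)) (rb.drop (J + 1)).reverse acc1
      else acc1
    headCov R o A J (A1 + 1) hs (rb :: rs) acc2
  | _, _, _, acc => acc

/-- the offsets at which an element of the window of `c` and an element of `d` meet, and those where
infinitely many do; the flag says that `c` and the right part of `d` meet -/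
def hitP (M ε : ℕ) (c d : Wd) (h : ℕ × Bool) : ℕ × Bool :=
  ((covL M d.wd ε c.al (h.1, 0)).1 ||| (if (c.r && d.l) || (c.l && d.r) then M else 0),
    h.2 || (!c.al.isEmpty && d.r))

def hitRow (M ε : ℕ) : List Wd → List Wd → ℕ × Bool → ℕ × Bool
  | c :: cs, d :: ds, h => hitRow M ε cs ds (hitP M ε c d h)
  | _, _, h => h

def hitAll (R A J : ℕ) : ℕ → List (List Wd) → List (List Wd) → ℕ × Bool → ℕ × Bool
  | A1, h :: hs, ra :: rb :: rs, acc =>
    if A < A1 then acc else
    let acc1 := hitRow (fm R) 0 (h.take (J + 1)) (ra.take (J + 1)).reverse acc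
    let acc2 := if A1 + 1 ≤ A then
      hitRow (fm R) 1 (h.drop (J + 1)) (rb.drop (J + 1)).reverse acc1 else acc1
    hitAll R A J (A1 + 1) hs (rb :: rs) acc2
  | _, _, _, acc => acc

/-- the offsets which are checked (the others are treated by hand) and whether the bulk is checked -/
def req (R A J : ℕ) : ℕ × Bool :=
  if A = 0 then
    if J ≤ 1 then (0, false) else if J = 2 then (fm R - (2 ^ (2 * R + 4) - 1), true)
    else (fm R - (2 ^ (2 * R + 1) - 1), true)
  else if A = 1 ∧ J ≤ 1 then (fm R - (2 ^ (2 * R) - 1), true)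
  else if A = 2 ∧ J = 0 then (fm R - 2 ^ (2 * R), true)
  else (fm R, true)

/-- every offset has two representations or (only allowed in some cases) none -/
def chkJ (R o X A J : ℕ) (head rec : List (List Wd)) : Bool :=
  let acc := headCov R o A J 0 head rec ((0, 0), 0)
  let q := req R A J
  let rest := q.1 ^^^ (acc.1.2 &&& q.1)
  let bb := q.2 && acc.2 < 2
  if rest == 0 && !bb then true
  else if A ≤ X && (J == 0 || 3 ≤ J || (J == 2 && (3 ≤ A || (A == 2 && (rest >>> (2 * R)) <<< (2 * R) == rest)))) then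
    let h := hitAll R A J 0 head rec (0, false)
    (h.1 &&& rest == 0) && (!bb || !h.2)
  else false

/-- the bits `0, ..., 3` agree, the bits `R + 1, R + 2, R + 3` agree, no further bits -/
def marg (R c : ℕ) : Bool :=
  (c &&& 15 == 0 || c &&& 15 == 15) && (c >>> (R + 1) == 0 || c >>> (R + 1) == 7)

/-- the right bits of the first row are the left bits of the second -/
def contR (R : ℕ) : List ℕ → List ℕ → Bool
  | c :: cs, d :: ds => (c.testBit (R + 3) == d.testBit 0) && contR R cs ds
  | _, _ => true

def mrow (R : ℕ) (p : List ℕ) : List Wd := p.map (mkW R)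

/-- the check for `n` macro times from `A` on; `rec` the rows `A - 1, A - 2, ...` -/
def run (R o X : ℕ) (head : List (List Wd)) :
    ℕ → ℕ → List ℕ × List ℕ → List (List Wd) → Bool
  | 0, _, _, _ => true
  | n + 1, A, pq, rec =>
    let rec' := (mrow R pq.1 :: rec).take (X + 2)
    pq.1.all (marg R) && contR R pq.2 pq.1 &&
      (List.range o).all (fun J => chkJ R o X A J head rec') &&
      run R o X head n (A + 1) (nextRow R pq.1 pq.2, pq.1) rec'

/-- the rows `0, 1, 2` in the columns which are used by hand -/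
def first (R o : ℕ) : Bool :=
  let z := 2 ^ R
  let s := 2 ^ (R + 4) - 2 ^ R
  (List.range o).all (fun j => cell R o j 0 == (if j % 2 = 0 then z else s)) &&
  (List.range o).all (fun j => cell R o j 1 ==
    (if j = 0 then 2 ^ (R + 4) - 2 ^ (R - 1) else if j = 1 then 2 ^ (R - 1) - 1
      else if j % 2 = 0 then 0 else 2 ^ R - 1)) &&
  cell R o 0 2 == 2 ^ (R - 1) - 1 + 2 ^ R

/-- the whole check: rows `0, ..., N - 1`, period `P` from `S` on -/
def chk (R o X S P N : ℕ) : Bool :=
  first R o && (rows R o (S + P) == rows R o S) && S + P + X + 2 ≤ N && X ≤ S && 2 ≤ X && 2 ≤ S && 8 ≤ R && 1 ≤ P && 7 ≤ o && o % 2 == 1 &&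
  run R o X ((List.range (X + 1)).map fun A => mrow R (rows R o A).1) N 0 (rows R o 0)
    (List.replicate (X + 2) (List.replicate o (mkW R 0)))

end Pool.Agent.UL
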