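import Pool.Agent.helper7.UL.Seg2

/-!
# Project ul (MP_62ffdf_lc): kernel check for o = 11, part
-/

set_option autoImplicit false
set_option maxRecDepth 1000000

namespace Pool.Agent.UL

theorem K11c0 : seg 24 11 8 0 10 = true := by decide +kernel

theorem K11c1 : segL 24 11 8
    ([16777216, 251658240, 16777216, 251658240, 16777216, 251658240, 16777216, 251658240, 16777216, 251658240, 16777216], [0, 0, 0, 0, 0, 0, 0, 0, 0, 0, 0])
    10 13 = true := by decide +kernel

theorem K11c2 : segL 24 11 8
    ([933888, 118784, 4095, 0, 8388608, 524287, 0, 9437184, 1048576, 268337152, 32767], [16383, 0, 247463935, 0, 0, 263716863, 0, 393216, 0, 2097152, 249823232])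
    23 13 = true := by decide +kernel

theorem K11c3 : segL 24 11 8
    ([0, 393216, 0, 268377088, 0, 2048, 268302336, 512, 268369920, 65536, 261816831], [0, 385024, 0, 320511, 0, 0, 0, 131071, 0, 512, 262143488])
    36 13 = true := by decide +kernel

theorem K11c4 : segL 24 11 8
    ([65536, 268091376, 0, 269312, 0, 0, 2047, 0, 2047, 0, 127], [16384, 417776, 0, 7168, 0, 2048, 268302336, 2048, 268304384, 128, 268304384])
    49 13 = true := by decide +kernel

theorem K11c5 : segL 24 11 8
    ([0, 267993072, 0, 7168, 0, 2048, 131072, 268304384, 65536, 268304512, 130687], [0, 335887, 0, 269312, 0, 0, 2047, 0, 511, 0, 268370304])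
    62 13 = true := by decide +kernel

theorem K11c6 : segL 24 11 8
    ([16, 360463, 0, 320511, 0, 0, 0, 131071, 0, 512, 268435071], [0, 268017663, 0, 268377088, 0, 2048, 131072, 268306944, 1536, 0, 268369920])
    75 13 = true := by decide +kernel

theorem K11c7 : segL 24 11 8
    ([8192, 267993088, 0, 268377088, 0, 2048, 268302336, 2048, 268304384, 128, 268369920], [0, 344064, 0, 320511, 0, 0, 0, 131071, 0, 65535, 0])
    88 13 = true := by decide +kernel

theorem K11c8 : segL 24 11 8
    ([0, 385024, 0, 269312, 0, 0, 2047, 0, 511, 0, 268370304], [0, 393216, 65536, 7168, 0, 2048, 268302336, 512, 268369920, 65536, 66047])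
    101 3 = true := by decide +kernel

end Pool.Agent.UL
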