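import Pool.Agent.helper7.UL.Seg2

/-!
# Project ul (MP_62ffdf_lc): kernel check for o = 15, part
-/

set_option autoImplicit false
set_option maxRecDepth 1000000

namespace Pool.Agent.UL

theorem K15c0 : seg 64 15 16 0 10 = true := by decide +kernel

theorem K15c1 : seg 64 15 16 10 8 = true := by decide +kernel

theorem K15c2 : segL 64 15 16
    ([18446744073709551616, 276701161105643274240, 18446744073709551616, 276701161105643274240, 18446744073709551616, 276701161105643274240, 18446744073709551616, 276701161105643274240, 18446744073709551616, 276701161105643274240, 18446744073709551616, 276701161105643274240, 18446744073709551616, 276701161105643274240, 18446744073709551616], [0, 0, 0, 0, 0, 0, 0, 0, 0, 0, 0, 0, 0, 0, 0])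
    18 10 = true := by decide +kernel

theorem K15c3 : segL 64 15 16
    ([25364273101350633472, 2305843009213693952, 267477789068788498432, 28823037615171174399, 0, 290536219160925437952, 0, 281312847124070662144, 9223372036854775808, 16140901064495857664, 0, 0, 1729382256910270463, 0, 23202545280212795392], [0, 16140901064495857664, 1152921504606846976, 276701161105643274240, 23058430092136939520, 16140901064495857663, 0, 13835058055282163711, 0, 11529215046068469759, 0, 576460752303423488, 294571444427049402368, 576460752303423487, 0])
    28 10 = true := by decide +kernel

theorem K15c4 : segL 64 15 16
    ([0, 792633534417207296, 0, 295075847585314897920, 36028797018963968, 295039818788295933952, 45035996273704960, 0, 4607182418800017408, 0, 293994983674745978880, 0, 0, 1152921504606846975, 0], [0, 0, 288230376151711744, 216172782113783807, 0, 0, 72057594037927935, 0, 0, 5764607523034234880, 3463268113447911423, 0, 2305843009213693952, 292842062170139131904, 2882303761517117440])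
    38 10 = true := by decide +kernel

theorem K15c5 : segL 64 15 16
    ([293999487274373349375, 0, 288230376151711744, 295075847585314897920, 72057594037927936, 576460752303423488, 294679530818106294272, 36028797018963967, 0, 144115188075855872, 0, 211669182486413312, 0, 36028797018963968, 295111876382333861888], [294571444427049402368, 864691128455135232, 360287970189639680, 0, 0, 144115188075855871, 0, 295147905179352825855, 0, 0, 45035996273704959, 0, 108086391056891904, 0, 9007199254740992])
    48 10 = true := by decide +kernel

theorem K15c6 : segL 64 15 16
    ([90071992547409920, 54043195528445952, 18577348462903295, 0, 4503599627370496, 295144527479632297984, 1407374883553280, 1125899906842623, 0, 21392098230009856, 1266637395197952, 0, 0, 171136785840078848, 10133099161583615], [0, 4503599627370496, 295134394380470714368, 13510798882111488, 3659174697238528, 0, 281474976710656, 294598466024813625344, 6192449487634431, 0, 18014398509481983, 0, 34902897112121344, 1125899906842624, 295003789991276969984])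
    58 10 = true := by decide +kernel

end Pool.Agent.UL
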