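import Pool.Agent.helper7.UL.Seg2

/-!
# Project ul (MP_62ffdf_lc): kernel check for o = 7, part
-/

set_option autoImplicit false
set_option maxRecDepth 1000000

namespace Pool.Agent.UL

theorem K7c0 : seg 80 7 24 0 10 = true := by decide +kernel

theorem K7c1 : seg 80 7 24 10 10 = true := by decide +kernel

theorem K7c2 : seg 80 7 24 20 6 = true := by decide +kernel

theorem K7c3 : segL 80 7 24
    ([1208925819614629174706176, 18133887294219437620592640, 1208925819614629174706176, 18133887294219437620592640, 1208925819614629174706176, 18133887294219437620592640, 1208925819614629174706176], [0, 0, 0, 0, 0, 0, 0])
    26 10 = true := by decide +kernel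

theorem K7c4 : segL 80 7 24
    ([1662273001970115115220991, 0, 1360041547066457821544448, 1057810092162800527867904, 0, 18133887294219437620592640, 1511157274518286468382720], [18889465931478580854784000, 0, 0, 1057810092162800527867904, 151115727451828646838272, 1208925819614629174706175, 0])
    36 10 = true := by decide +kernel

theorem K7c5 : segL 80 7 24
    ([17963882100836130392899584, 0, 14167099448608935641088, 0, 377789318629571617095680, 47223664828696452136960, 28334198897217871282176], [14167099448608935641088, 0, 1548936206381243630092288, 269174889523569777180672, 33056565380087516495872, 0, 75557863725914323419136])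
    46 10 = true := by decide +kernel

theorem K7c6 : segL 80 7 24
    ([442721857769029238784, 0, 103892062623132194701312, 7083549724304467820544, 0, 885443715538058477568, 0], [113336795588871485128704, 54307214553000919957503, 0, 70835497243044678205440, 0, 1134548547509432262590464, 51060587596028038873088])
    56 10 = true := by decide +kernel

theorem K7c7 : segL 80 7 24
    ([0, 221360928884514619392, 0, 116362061616959851593727, 0, 0, 0], [0, 11510768301994760208384, 73786976294838206464, 19342739326857771957092352, 0, 47813960639055157788672, 8854437155380584775680])
    66 10 = true := by decide +kernel

end Pool.Agent.UL
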