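import Pool.Agent.helper7.UL.Defs

/-!
# Project ul (MP_62ffdf_lc): splitting the check into segments
-/

set_option autoImplicit false

namespace Pool.Agent.UL

/-- one step of `run` without the checks -/
def adv1 (R X : ℕ) (s : (List ℕ × List ℕ) × List (List Wd)) : (List ℕ × List ℕ) × List (List Wd) :=
  ((nextRow R s.1.1 s.1.2, s.1.1), (mrow R s.1.1 :: s.2).take (X + 2))

/-- `n` steps of `run` without the checks -/
def adv (R X : ℕ) : ℕ → (List ℕ × List ℕ) × List (List Wd) → (List ℕ × List ℕ) × List (List Wd)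
  | 0, s => s
  | n + 1, s => adv R X n (adv1 R X s)

theorem adv_add (R X m n : ℕ) (s : (List ℕ × List ℕ) × List (List Wd)) :
    adv R X (m + n) s = adv R X n (adv R X m s) := by
  induction m generalizing s with
  | zero => simp [adv]
  | succ m ih => rw [Nat.add_right_comm, adv, adv, ih]

theorem run_add (R o X : ℕ) (head : List (List Wd)) (n m A : ℕ)
    (s : (List ℕ × List ℕ) × List (List Wd)) (h1 : run R o X head n A s.1 s.2 = true)
    (h2 : run R o X head m (A + n) (adv R X n s).1 (adv R X n s).2 = true) :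
    run R o X head (n + m) A s.1 s.2 = true := by
  induction n generalizing A s with
  | zero => simpa [adv] using h2
  | succ n ih =>
    rw [Nat.add_right_comm, run]
    rw [run] at h1
    simp only [Bool.and_eq_true] at h1 ⊢
    refine ⟨h1.1, ?_⟩
    have := ih (A + 1) (adv1 R X s) (by simpa [adv1] using h1.2)
      (by rw [Nat.add_right_comm, Nat.add_assoc]; simpa [adv] using h2)
    simpa [adv1] using this

/-- the starting state -/
def ini (R o X : ℕ) : (List ℕ × List ℕ) × List (List Wd) :=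
  (rows R o 0, List.replicate (X + 2) (List.replicate o (mkW R 0)))

/-- the rows `0, ..., X` -/
def hd (R o X : ℕ) : List (List Wd) := (List.range (X + 1)).map fun A => mrow R (rows R o A).1

/-- the segment of length `n` from `a` on -/
def seg (R o X a n : ℕ) : Bool :=
  run R o X (hd R o X) n a (adv R X a (ini R o X)).1 (adv R X a (ini R o X)).2

theorem seg_add (R o X a n m : ℕ) (h1 : seg R o X a n = true) (h2 : seg R o X (a + n) m = true) :
    seg R o X a (n + m) = true := by
  unfold seg at h1 h2 ⊢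
  rw [adv_add] at h2
  exact run_add R o X _ n m a _ h1 h2

theorem chk_of_seg (R o X S P N : ℕ) (h1 : first R o = true) (h2 : rows R o (S + P) = rows R o S)
    (h3 : (decide (S + P + X + 2 ≤ N) && decide (X ≤ S) && decide (2 ≤ X) && decide (2 ≤ S) &&
      decide (8 ≤ R) && decide (1 ≤ P) && decide (7 ≤ o) && (o % 2 == 1)) = true)
    (h4 : seg R o X 0 N = true) : chk R o X S P N = true := by
  unfold seg at h4
  simp only [adv, ini, hd] at h4
  unfold chk
  simp only [Bool.and_eq_true] at h3 ⊢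
  obtain ⟨⟨⟨⟨⟨⟨⟨a1, a2⟩, a3⟩, a4⟩, a5⟩, a6⟩, a7⟩, a8⟩ := h3
  exact ⟨⟨⟨⟨⟨⟨⟨⟨⟨⟨h1, by simp [h2]⟩, a1⟩, a2⟩, a3⟩, a4⟩, a5⟩, a6⟩, a7⟩, a8⟩, h4⟩

end Pool.Agent.UL
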