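import Pool.Agent.helper7.UL.Seg

/-!
# Project ul (MP_62ffdf_lc): segments of the check from given rows
-/

set_option autoImplicit false

namespace Pool.Agent.UL

/-- `k` further rows -/
def rf (R : ℕ) : ℕ → List ℕ × List ℕ → List ℕ × List ℕ
  | 0, r => r
  | k + 1, r => rf R k (nextRow R r.1 r.2, r.1)

theorem rf_succ' (R k : ℕ) (r : List ℕ × List ℕ) :
    rf R (k + 1) r = (nextRow R (rf R k r).1 (rf R k r).2, (rf R k r).1) := by
  induction k generalizing r with
  | zero => rfl
  | succ k ih => rw [rf, ih]; rfl

theorem rows_add (R o a k : ℕ) : rows R o (a + k) = rf R k (rows R o a) := by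
  induction k with
  | zero => rfl
  | succ k ih => rw [← Nat.add_assoc, rf_succ', ← ih]; rfl

theorem rows_link (R o a k : ℕ) (r r' : List ℕ × List ℕ) (h : rows R o a = r)
    (h' : rf R k r = r') : rows R o (a + k) = r' := by
  rw [rows_add, h, h']

theorem adv_fst (R X n : ℕ) (s : (List ℕ × List ℕ) × List (List Wd)) :
    (adv R X n s).1 = rf R n s.1 := by
  induction n generalizing s with
  | zero => rfl
  | succ n ih => rw [adv, ih]; rfl

theorem adv_snd (R X n k : ℕ) (s : List ℕ × List ℕ) (h h' : List (List Wd))
    (e : h.take k = h'.take k) :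
    (adv R X n (s, h)).2.take (k + n) = (adv R X n (s, h')).2.take (k + n) := by
  induction n generalizing s h h' k with
  | zero => simpa [adv] using e
  | succ n ih =>
    have := ih (k + 1) (nextRow R s.1 s.2, s.1) ((mrow R s.1 :: h).take (X + 2))
      ((mrow R s.1 :: h').take (X + 2)) (by
        have c : (mrow R s.1 :: h).take (k + 1) = (mrow R s.1 :: h').take (k + 1) := by
          rw [List.take_succ_cons, List.take_succ_cons, e]
        rw [List.take_take, List.take_take, min_comm, ← List.take_take, ← List.take_take, c])
    rw [show k + (n + 1) = k + 1 + n by omega]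
    exact this

theorem adv_len (R X n : ℕ) (s : (List ℕ × List ℕ) × List (List Wd)) :
    (adv R X (n + 1) s).2.length ≤ X + 2 := by
  induction n generalizing s with
  | zero => simp [adv, adv1]
  | succ n ih => exact ih (adv1 R X s)

/-- the segment of length `n` from `a` on, `r` the rows `a - X - 2` -/
def segL (R o X : ℕ) (r : List ℕ × List ℕ) (a n : ℕ) : Bool :=
  run R o X (hd R o X) n a (adv R X (X + 2) (r, [])).1 (adv R X (X + 2) (r, [])).2

theorem seg_of_segL (R o X b n : ℕ) (r : List ℕ × List ℕ) (hr : rows R o b = r)
    (h : segL R o X r (b + (X + 2)) n = true) : seg R o X (b + (X + 2)) n = true := by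
  unfold segL at h
  unfold seg
  have e : adv R X (b + (X + 2)) (ini R o X) = adv R X (X + 2) (r, []) := by
    rw [adv_add]
    have e1 : (adv R X b (ini R o X)).1 = r := by
      rw [adv_fst, ← hr]
      have := rows_add R o 0 b
      rw [Nat.zero_add] at this
      exact this.symm
    set s := adv R X b (ini R o X) with hs
    have e2 : s = (r, s.2) := by rw [← e1]
    rw [e2]
    have h1 := adv_snd R X (X + 2) 0 r s.2 [] rfl
    have l1 := adv_len R X (X + 1) (r, s.2)
    have l2 := adv_len R X (X + 1) (r, [])
    rw [Nat.zero_add, List.take_of_length_le l1, List.take_of_length_le l2] at h1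
    refine Prod.ext ?_ h1
    rw [adv_fst, adv_fst]
  rw [e]
  exact h

end Pool.Agent.UL
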