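import Pool.Agent.helper7.UL.Defs

/-!
# Project ul (MP_62ffdf_lc): rows `ul:XX`

THEOREM. For every odd `o` with `7 ≤ o ≤ 15` and every even `e ≥ 2000` coprime to `o` the Ulam sequence
`U(o, e)` has exactly `e/2 + 2` even terms and eventually periodic gaps; the structure
`(ℕ, +, U(o, e))` is NIP and does not interpret `(ℕ, +, ×)`.

PLAN. `e = 2 h`, `W = h + 1`. The even terms are `2 δ`, `δ ∈ Del o h` (`δ = h + k o`, `0 ≤ k ≤ h`, and
`2 (h+1) o`), the odd terms are `o + 2 m`, `m ∈ T`. `T` satisfies: `0 ∈ T` and `m > 0` is in `T` iff exactly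
one `m - δ` is in `T`. Coordinates `m = h j + o i`, `0 ≤ j < o`, `i ∈ ℤ`: subtracting `h + k o` means
`(j, i) → (j - 1, i - k)`, subtracting `2 (h+1) o` means `(j, i) → (j, i - 2 W)`; the column `-1` is the column
`o - 1` moved: `(-1, i) = (o - 1, i - (W - 1))`. So `S j i := (h j + o i ∈ T)` satisfies
`S j i` iff exactly one of the `S (j-1) i'`, `i - W < i' ≤ i`, and `S j (i - 2W)` holds.
Write `i = A W + B` (macro time `A`, offset `B`). For large `W` the values near `A W` are given by a WORD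
`c_j(A)` (offsets `-R ≤ B ≤ 3`, constant beyond), and `c_j(A) = step (c_{j-1}(A-1)) (c_{j-1}(A)) (c_j(A-2))`.
The words do not depend on `W`; they become periodic in `A` (kernel check `chk`).
Even numbers `2 n`: `n = o + M`, `M = h J + o I`; the sums of two odd terms are the
`m₁ + m₂ = M`: `j₁ + j₂ = J + ε o`, `i₁ + i₂ = I - ε (W-1)`, `ε = 0, 1`. The check `chkJ` shows that for all
`(J, A, B)` there are two representations or none; the cells with `I ≤ W - 2`, `J ≤ 1`, or `J = 2`, `I ≤ 2`, or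
`I < 0`, or `(J, I) = (0, 2W-1)` are treated by hand (SMA, EVN).

RULES. Row `XX`: file `Pool/Agent/<seat>/UL/XX.lean`, `import Pool.Agent.helper7.UL.Spec` (or SpecN for the
block N), namespace `Pool.Agent.UL`, `theorem XX (h1 : YY_stmt) ... : XX_stmt` with the rows after the word from as
hypotheses in this order, auxiliary lemmas prefixed `XX_`. No double quotes, no convert / congr!, no
native_decide.
-/

set_option autoImplicit false

namespace Pool.Agent.UL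

open Finset

/-! ## Block U: Ulam sequences and sets -/

/-- the set built from the halves of the even terms and from `T` -/
def Vset (o h : ℕ) (T : Set ℕ) : Set ℕ := {x | (∃ δ ∈ Del o h, x = 2 * δ) ∨ ∃ m ∈ T, x = o + 2 * m}

/-- **Row ULS** (medium). `V` infinite: otherwise let `M` be the largest element and `M'` the second largest
(`a, b ∈ V`); `M + M' > b` and `(M', M)` is its only representation (if `p.2 = M` then `p.1 = M'`; if
`p.2 < M` then `p.2 ≤ M'`, `p.1 < M'`), so `M + M' ∈ V`, contradiction. Let `v = Nat.nth (· ∈ V)`, strictly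
increasing with range `V`, `v 0 = a`, `v 1 = b`. For `n ≥ 2` and `m > v (n-1)` with `m ≤ v n` the pairs
`(v i, v j)`, `i < j < n`, with sum `m` are exactly the `Rep V m` (both summands are `< m ≤ v n`, positive). So
`v n` is in the set of `IsUlam` (ii) and no smaller `m` is. Uniqueness: strong induction on `n`. -/
def ULS_stmt : Prop := ∀ (a b : ℕ) (V : Set ℕ), 0 < a → a < b →
  (∀ n ≤ b, n ∈ V ↔ n = a ∨ n = b) → (∀ n, b < n → (n ∈ V ↔ ∃! p, Rep V n p)) →
  V.Infinite ∧ ∀ u : ℕ → ℕ, IsUlam a b u ↔ u = Nat.nth (· ∈ V)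

/-- **Row GAP** (short-medium). `v = Nat.nth (· ∈ V)`. `Q` = number of elements of `V` in `[K, K + P)`, positive
as `V` is infinite; for `k ≥` (number of elements below `K`): `v (k + Q) = v k + P` (the elements of `V` in
`[v k, v k + P)` are `Q` in number by periodicity, `v k + P ∈ V`). -/
def GAP_stmt : Prop := ∀ (V : Set ℕ) (K P : ℕ), V.Infinite → 0 < P → (∀ n, K ≤ n → (n ∈ V ↔ n + P ∈ V)) →
  ∃ k₀ Q, 0 < Q ∧ ∀ k, k₀ ≤ k → Nat.nth (· ∈ V) (k + Q) = Nat.nth (· ∈ V) k + P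

/-- **Row OEV** (medium). From a set `T` with the recursion to the odd numbers. (i) `2 δ ≤ 2 h` only for `δ = h`;
`o + 2 m ≤ 2 h`, `m > 0`: `m < h ≤ δ` for all `δ`, so `m ∉ T` by the recursion (no `δ ≤ m`). (ii) for
odd `x = o + 2 m > 2 h` (`m > 0`): the representations of `x` in `V` are the unordered pairs
`{2 δ, o + 2 (m - δ)}` (the two summands have different parity). (iii) for even `x`: both summands even or
both odd: the representations correspond to the pairs in `T` and the pairs in `Del`. (`o` odd: parities.)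
(iv) number of even elements: the even elements are the `2 δ`; `h + k o` (`k ≤ h`) are different and
`< 2 (h+1) o`. -/
def OEV_stmt : Prop := ∀ (o h : ℕ) (T : Set ℕ), o % 2 = 1 → o < h → 0 ∈ T →
  (∀ m, 0 < m → (m ∈ T ↔ ∃! δ, δ ∈ Del o h ∧ δ ≤ m ∧ m - δ ∈ T)) →
  (∀ n ≤ 2 * h, n ∈ Vset o h T ↔ n = o ∨ n = 2 * h) ∧
  (∀ n, 2 * h < n → n % 2 = 1 → (n ∈ Vset o h T ↔ ∃! p, Rep (Vset o h T) n p)) ∧
  (∀ n (p : ℕ × ℕ), Rep (Vset o h T) (2 * n) p ↔
    (∃ q : ℕ × ℕ, q.1 < q.2 ∧ q.1 ∈ T ∧ q.2 ∈ T ∧ q.1 + q.2 + o = n ∧ p = (o + 2 * q.1, o + 2 * q.2)) ∨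
    (∃ q : ℕ × ℕ, q.1 < q.2 ∧ q.1 ∈ Del o h ∧ q.2 ∈ Del o h ∧ q.1 + q.2 = n ∧ p = (2 * q.1, 2 * q.2))) ∧
  (∀ n, 2 * n ∈ Vset o h T ↔ n ∈ Del o h) ∧
  {x | x ∈ Vset o h T ∧ x % 2 = 0}.ncard = h + 2

/-! ## Block W: words -/

/-- **Row UPD** (short-medium). `log2 c` is the highest bit (`Nat.testBit_log2`-like lemmas,
`Nat.lt_log2_self`, `Nat.lt_two_pow..`), `c - 2 ^ log2 c` the number without it. -/
def UPD_stmt : Prop := ∀ (n c b : ℕ), c < 2 ^ n →
  ((up1 c).testBit b = true ↔ 1 ≤ ((Ico (b + 1) n).filter fun b' => c.testBit b' = true).card) ∧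
  ((up2 c).testBit b = true ↔ 2 ≤ ((Ico (b + 1) n).filter fun b' => c.testBit b' = true).card)

/-- **Row DND** (medium). For `c ≠ 0` write `c = 2 ^ q (2 k + 1)`; `c &&& (c - 1) = 2 ^ (q+1) k` (the number
without its lowest bit), `c ^^^ (c &&& (c - 1)) = 2 ^ q`; `full R - (2 ^ q - 1)` has the bits `q, ..., R + 3`. -/
def DND_stmt : Prop := ∀ (R c b : ℕ), c < 2 ^ (R + 4) → b < R + 4 →
  ((dn1 R c).testBit b = true ↔ 1 ≤ ((range (b + 1)).filter fun b' => c.testBit b' = true).card) ∧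
  ((dn2 R c).testBit b = true ↔ 2 ≤ ((range (b + 1)).filter fun b' => c.testBit b' = true).card) ∧
  dn1 R c < 2 ^ (R + 4) ∧ dn2 R c < 2 ^ (R + 4)

/-- **Row STP** (short-medium), from UPD, DND. Bitwise: `x ^^^ y ^^^ z ^^^ (x &&& y &&& z)` is true iff exactly one
of `x, y, z` is; then remove the positions with two bits in `up` or `dn`. -/
def STP_stmt : Prop := ∀ (R cm c0 c2 : ℕ), cm < 2 ^ (R + 4) → c0 < 2 ^ (R + 4) → c2 < 2 ^ (R + 4) →
  step R cm c0 c2 < 2 ^ (R + 4) ∧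
  (cm.testBit (R + 3) = true → step R cm c0 c2 = 0) ∧
  (cm.testBit (R + 3) = false → ∀ b < R + 4, ((step R cm c0 c2).testBit b = true ↔
    ((Ico (b + 1) (R + 4)).filter fun b' => cm.testBit b' = true).card +
    ((range (b + 1)).filter fun b' => c0.testBit b' = true).card +
    (if c2.testBit b = true then 1 else 0) = 1))

/-- the bits `0, 1, 2` agree and the bits `R + 1, R + 2, R + 3` agree -/
def Mg (R c : ℕ) : Prop := c < 2 ^ (R + 4) ∧ c.testBit 1 = c.testBit 0 ∧ c.testBit 2 = c.testBit 0 ∧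
  c.testBit (R + 1) = c.testBit (R + 3) ∧ c.testBit (R + 2) = c.testBit (R + 3)

/-- **Row SHW** (short). -/
def SHW_stmt : Prop := ∀ (R c : ℕ), 8 ≤ R → marg R c = true →
  Mg R c ∧ Mg R (sh R c) ∧ (∀ B : ℤ, wv R (sh R c) B = wv R c (B + 1)) ∧
  (sh R c).testBit 0 = c.testBit 0 ∧ (sh R c).testBit (R + 3) = c.testBit (R + 3)

/-- **Row ROW** (short-medium). Unfold `rows`, `nextRow`, `rowTail` (induction on the lists). -/
def ROW_stmt : Prop := ∀ (R o : ℕ), 1 ≤ o →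
  (∀ A, (rows R o A).1 = (List.range o).map fun j => cell R o j A) ∧
  (∀ A, (rows R o (A + 1)).2 = (rows R o A).1) ∧ (rows R o 0).2 = List.replicate o 0 ∧
  cell R o 0 0 = 2 ^ R ∧ (∀ j, j + 1 < o → cell R o (j + 1) 0 = step R 0 (cell R o j 0) 0) ∧
  (∀ A, cell R o 0 (A + 1) = step R (sh R (if A = 0 then 0 else cell R o (o - 1) (A - 1)))
    (sh R (cell R o (o - 1) A)) (if A = 0 then 0 else cell R o 0 (A - 1))) ∧
  (∀ A j, j + 1 < o → cell R o (j + 1) (A + 1) = step R (cell R o j A) (cell R o j (A + 1))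
    (if A = 0 then 0 else cell R o (j + 1) (A - 1)))

/-- the facts about the table which are used -/
structure Tab (R o : ℕ) : Prop where
  hR : 8 ≤ R
  ho : 7 ≤ o
  hodd : o % 2 = 1
  hmarg : ∀ j < o, ∀ A, marg R (cell R o j A) = true
  hcont : ∀ j < o, ∀ A, (cell R o j A).testBit (R + 3) = (cell R o j (A + 1)).testBit 0
  hfirst : first R o = true

/-- the macro time of `i` -/
def mA (R W : ℕ) (i : ℤ) : ℕ := ((i + R) / W).toNat

/-- the cellular automaton -/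
def Sf (R o W j : ℕ) (i : ℤ) : Bool :=
  decide (0 ≤ i) && wv R (cell R o j (mA R W i)) (i - (mA R W i : ℕ) * (W : ℤ))

/-- **Row EXT** (medium). `-R ≤ B < W - R`: `mA = A` and the offset is `B` (if `i = A W + B < 0` then `A = 0`,
`B < 0` and both sides are false, by `first`: the words at `A = 0` have no bits below `R`; `A W + B ≥ 0`
otherwise). `-(W-4) ≤ B < -R`: then for `A = 0` both sides are false; for `A ≥ 1` the macro time is `A - 1` and the
offset `W + B ≥ 4`, so the value is the right bit of the word at `A - 1` = the left bit of the word at `A`. -/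
def EXT_stmt : Prop := ∀ R o W : ℕ, Tab R o → R + 10 ≤ W → ∀ j < o, ∀ (A : ℕ) (B : ℤ),
  -((W : ℤ) - 4) ≤ B → B < (W : ℤ) - R → Sf R o W j (A * W + B) = wv R (cell R o j A) B

/-- **Row WIN** (medium). Count the `i' ∈ (i - W, i]`, `i = A W + B₀`, as the `(A-1) W + B'`, `B₀ < B' < W - R`, and the
`A W + B'`, `-R ≤ B' ≤ B₀`. If the right bit of `cm` is true then so is the left bit of `c0`; there are at least
two: if `B₀ ≥ -R + 1` the offsets `-R, -R + 1` of `c0`, if `B₀ = -R` many of `cm`. If it is false then `cm`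
has no ones at offsets `> 0` (`Mg`), and for `B₀ ≤ 3` the count is the one of bits, for `B₀ > 3` the ones of
`cm` do not occur and those of `c0` up to `3` and, if its right bit is true, more. -/
def WIN_stmt : Prop := ∀ (R W cm c0 : ℕ) (A : ℤ) (g : ℤ → Bool), 8 ≤ R → R + 10 ≤ W → Mg R cm → Mg R c0 →
  cm.testBit (R + 3) = c0.testBit 0 →
  (∀ B : ℤ, -R ≤ B → B < W - R → g ((A - 1) * W + B) = wv R cm B) →
  (∀ B : ℤ, -R ≤ B → B < W - R → g (A * W + B) = wv R c0 B) →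
  ∀ B₀ : ℤ, -R ≤ B₀ → B₀ < W - R →
    (cm.testBit (R + 3) = true →
      2 ≤ ((Ioc (A * W + B₀ - W) (A * W + B₀)).filter fun i => g i = true).card) ∧
    (cm.testBit (R + 3) = false → B₀ ≤ 3 →
      ((Ioc (A * W + B₀ - W) (A * W + B₀)).filter fun i => g i = true).card =
        ((Ico ((B₀ + R).toNat + 1) (R + 4)).filter fun b' => cm.testBit b' = true).card +
        ((range ((B₀ + R).toNat + 1)).filter fun b' => c0.testBit b' = true).card) ∧
    (cm.testBit (R + 3) = false → 3 < B₀ → c0.testBit (R + 3) = false →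
      ((Ioc (A * W + B₀ - W) (A * W + B₀)).filter fun i => g i = true).card =
        ((range (R + 4)).filter fun b' => c0.testBit b' = true).card) ∧
    (cm.testBit (R + 3) = false → 3 < B₀ → c0.testBit (R + 3) = true →
      3 ≤ ((Ioc (A * W + B₀ - W) (A * W + B₀)).filter fun i => g i = true).card)

/-- the previous column -/
def colp (R o W j : ℕ) (i : ℤ) : Bool :=
  if j = 0 then Sf R o W (o - 1) (i - ((W : ℤ) - 1)) else Sf R o W (j - 1) i

/-- **Row REC** (medium-long), from STP, SHW, ROW, EXT, WIN. `i = A W + B₀`, `-R ≤ B₀ < W - R`, `A = mA R W i`. For `j ≥ 1` the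
function `g = colp j` satisfies the hypotheses of WIN with `cm = cell (j-1) (A-1)` (`0` if `A = 0`, then
`g i' = false` for `i' = -W + B < 0`), `c0 = cell (j-1) A` (EXT). For `j = 0`:
`g (A W + B) = Sf (o-1) ((A-1) W + (B + 1))` is `wv (cell (o-1) (A-1)) (B+1) = wv (sh ..) B` (`B + 1 < W - R` by EXT; for
`B + 1 = W - R` use the cell `A` with the offset `-R` and the continuity), so `cm = sh (cell (o-1) (A-2))`,
`c0 = sh (cell (o-1) (A-1))` (`0` for negative macro times). `Sf j (i - 2W)` is the value of the word at `A - 2` at `B₀`.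
The word `cell j A` is `step cm c0 c2` (ROW); for `(j, A) = (0, 0)` it is `2 ^ R`, `i > 0`: `B₀ > 0`, the value is
false and the count is `0` (all words at negative macro times are `0`). Compare with STP at the bit
`b = B₀ + R` (`B₀ ≤ 3`) and at the bit `R + 3` for `B₀ > 3` (`wv` is constant there; STP at `b = R + 3` has the
count of `Ico (R+4) (R+4) = ∅` and of all bits of `c0`, at least three if its right bit is true). -/
def REC_stmt : Prop := ∀ R o W : ℕ, Tab R o → R + 10 ≤ W →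
  Sf R o W 0 0 = true ∧ ∀ j < o, ∀ i : ℤ, 0 ≤ i → ¬(j = 0 ∧ i = 0) →
    (Sf R o W j i = true ↔
      ((Ioc (i - W) i).filter fun i' => colp R o W j i' = true).card +
        (if Sf R o W j (i - 2 * W) = true then 1 else 0) = 1)

/-- the set `T` -/
def Tset (R o W : ℕ) : Set ℕ :=
  {m | ∃ j < o, ∃ i : ℤ, Sf R o W j i = true ∧ (m : ℤ) = ((W : ℤ) - 1) * j + o * i}

/-- **Row CRD** (short). Coordinates: `W - 1` is invertible modulo `o`. -/
def CRD_stmt : Prop := ∀ o W : ℕ, 1 ≤ o → 1 ≤ W → Nat.Coprime o (W - 1) →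
  (∀ m : ℤ, ∃ j < o, ∃ i : ℤ, m = ((W : ℤ) - 1) * j + o * i) ∧
  ∀ j < o, ∀ j' < o, ∀ i i' : ℤ, ((W : ℤ) - 1) * j + o * i = ((W : ℤ) - 1) * j' + o * i' → j = j' ∧ i = i'

/-- **Row TRC** (medium), from CRD, REC. `m = (W-1) j + o i`. `m - (h + k o)`, `h = W - 1`, is `(j-1, i-k)` for `j ≥ 1` and
`(o-1, i-k-h)` for `j = 0`; `m - 2 (h+1) o` is `(j, i - 2W)`. As `k` runs through `0, ..., h` the number `i - k` runs
through `(i - W, i]`. `Sf` is false for negative `i`; so if `i < 0` neither `m` nor any `m - δ` is in `T` (for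
`j = 0`, `i < 0` we would have `m < 0`). The elements `h + k o` and `2 (h+1) o` of `Del` are different, so the number
of `δ ∈ Del` with `δ ≤ m`, `m - δ ∈ T` is the number in REC (`m - δ < 0` has no coordinates with `i ≥ 0`). -/
def TRC_stmt : Prop := ∀ R o W : ℕ, Tab R o → R + 10 ≤ W → o < W → Nat.Coprime o (W - 1) →
  0 ∈ Tset R o W ∧ ∀ m, 0 < m → (m ∈ Tset R o W ↔
    ∃! δ, δ ∈ Del o (W - 1) ∧ δ ≤ m ∧ m - δ ∈ Tset R o W)

/-! ## Block C: the check -/

/-- capped counter of an accumulator -/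
def cnt (β : ℕ) (acc : ℕ × ℕ) : ℕ := if acc.2.testBit β then 2 else if acc.1.testBit β then 1 else 0

/-- **Row CVL** (short-medium). Induction on the list. -/
def CVL_stmt : Prop := ∀ (R M D ε β : ℕ) (ss : List ℕ) (acc : ℕ × ℕ),
  cnt β (covL M D ε ss acc) ≤ cnt β acc + ss.countP (fun s => D.testBit (β + s + ε)) ∧
  ((covL M D ε ss acc).1.testBit β = true ↔
    acc.1.testBit β = true ∨ (M.testBit β = true ∧ ∃ s ∈ ss, D.testBit (β + s + ε) = true)) ∧
  cnt β (selfL R M D ε ss acc) ≤ cnt β acc +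
    ss.countP (fun s => D.testBit (β + s + ε) && decide (2 * (R + 3 - s) + 2 - ε ≤ β))

/-- **Row BDN** (short-medium). Induction on the fuel: for `c < 2 ^ k`, `k ≤ R + 4`. -/
def BDN_stmt : Prop := ∀ (R c : ℕ), c < 2 ^ (R + 4) →
  (bitsDown R (R + 4) c).Nodup ∧
  (∀ s, s ∈ bitsDown R (R + 4) c ↔ s ≤ R + 3 ∧ c.testBit (R + 3 - s) = true) ∧
  (∀ b, (ess R c).testBit b = true → c.testBit b = true) ∧ ess R c < 2 ^ (R + 4)

/-- **Row WID** (short-medium), from BDN. The bit `γ` of `wide R c` belongs to the offset `γ - 2R - 4`. -/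
def WID_stmt : Prop := ∀ (R c : ℕ), c < 2 ^ (R + 4) → ∀ γ < 3 * R + 12,
  (wide R c).testBit γ = wv R c ((γ : ℤ) - 2 * R - 4) ∧
  ((mkW R c).wo.testBit γ = true ↔ wv R c ((γ : ℤ) - 2 * R - 4) = true ∧
    ¬(R + 4 ≤ γ ∧ (ess R c).testBit (γ - (R + 4)) = true))

/-- the offsets which occur -/
noncomputable def box (R : ℕ) : Finset ℤ := Icc (-(3 * (R : ℤ) + 12)) ((R : ℤ) + 11)

/-- the pairs of offsets `(B₁, S - B₁)` of ones of two words -/
noncomputable def nP (R c d : ℕ) (S : ℤ) : Finset ℤ :=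
  (box R).filter fun B => wv R c B = true ∧ wv R d (S - B) = true ∧ S - B ∈ box R

/-- the same in one word -/
noncomputable def nS (R c : ℕ) (S : ℤ) : Finset ℤ :=
  (box R).filter fun B => wv R c B = true ∧ wv R c (S - B) = true ∧ S - B ∈ box R ∧ B < S - B

/-- the ones of `c` in the window if the right bit of `d` is true -/
noncomputable def nB (R c d : ℕ) : Finset ℤ :=
  (Icc (-(R : ℤ)) 3).filter fun B => wv R c B = true ∧ d.testBit (R + 3) = true

/-- **Row PCV** (medium), from CVL, BDN, WID. `β` codes the offset `B = β - 2R - 1`, `S = B + ε`. The number `s = R + 3 - b` in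
the list of `c` stands for `B₁ = b - R`, and `D.testBit (β + s + ε)`, `D = wide d`, is `wv d (S - B₁)` (WID; the index is
`≤ 3R + 11`). In the second list (bits of `d`, mask `c.wo`) `B₂ = b - R` and `B₁ = S - B₂`, `wv c B₁` and `B₁` is
not in the list of `c`: so these `B₁` are different from the first ones. In the third case (`M, M`)
there are at least two elements: `B₁ = R + 10, R + 11` if `c.r`, `d.l` (`S - B₁ < -R`), and `B₁ = S - (R + 10), S - (R + 11)` if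
`c.l`, `d.r`. -/
def PCV_stmt : Prop := ∀ (R ε c d β : ℕ) (acc : (ℕ × ℕ) × ℕ), 8 ≤ R → ε ≤ 1 → c < 2 ^ (R + 4) →
  d < 2 ^ (R + 4) → β < 2 * R + 8 →
  (cnt β (pairCov (fm R) ε (mkW R c) (mkW R d) acc).1 ≤
    cnt β acc.1 + (nP R c d ((β : ℤ) - 2 * R - 1 + ε)).card) ∧
  ((pairCov (fm R) ε (mkW R c) (mkW R d) acc).2 ≤ acc.2 + (nB R c d).card + (nB R d c).card) ∧
  (cnt β (selfCov R (fm R) ε (mkW R c) acc).1 ≤
    cnt β acc.1 + (nS R c ((β : ℤ) - 2 * R - 1 + ε)).card) ∧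
  (selfCov R (fm R) ε (mkW R c) acc).2 ≤ acc.2 + (nB R c c).card

/-- the part of `(j₁, A₁)` in the count of the representations of `(J, A, β)` -/
noncomputable def ctr (R o A J A1 j1 β : ℕ) : ℕ :=
  let ε := if j1 ≤ J then 0 else 1
  let j2 := J + ε * o - j1
  let A2 := A - A1 - ε
  if A1 + ε ≤ A then
    (if A1 < A2 ∨ (A1 = A2 ∧ j1 < j2) then
      (nP R (cell R o j1 A1) (cell R o j2 A2) ((β : ℤ) - 2 * R - 1 + ε)).card
    else if A1 = A2 ∧ j1 = j2 then (nS R (cell R o j1 A1) ((β : ℤ) - 2 * R - 1 + ε)).card else 0)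
  else 0

/-- the same for the bulk -/
noncomputable def ctb (R o A J A1 j1 : ℕ) : ℕ :=
  let ε := if j1 ≤ J then 0 else 1
  let j2 := J + ε * o - j1
  let A2 := A - A1 - ε
  if A1 + ε ≤ A then
    (if A1 < A2 ∨ (A1 = A2 ∧ j1 < j2) then
      (nB R (cell R o j1 A1) (cell R o j2 A2)).card + (nB R (cell R o j2 A2) (cell R o j1 A1)).card
    else if A1 = A2 ∧ j1 = j2 then (nB R (cell R o j1 A1) (cell R o j1 A1)).card else 0)
  else 0

/-- the data of the row `A` -/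
def rowW (R o A : ℕ) : List Wd := (List.range o).map fun j => mkW R (cell R o j A)

/-- the rows `A, A - 1, ..., A - X - 1`, zero rows for negative macro times -/
def recW (R o X A : ℕ) : List (List Wd) :=
  (List.range (X + 2)).map fun k => if k ≤ A then rowW R o (A - k) else List.replicate o (mkW R 0)

/-- the rows `0, ..., X` -/
def headW (R o X : ℕ) : List (List Wd) := (List.range (X + 1)).map fun A => rowW R o A

/-- **Row HCV** (medium-long), from PCV. First for `rowCov`: if `cs` consists of the data of the cells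
`(j₁ + k, A₁)` and `ds` of those of the cells `(j₂ - k, A₂)`, `k < n`, then the increase is at most the sum of the parts; the
first call uses `j₁ = 0, ..., J`, `j₂ = J - j₁`, `ε = 0`, the second `j₁ = J + 1, ..., o - 1`, `j₂ = J + o - j₁`, `ε = 1`. Then
induction on the lists for `headCov`; an early exit is harmless (the parts are `≥ 0`). -/
def HCV_stmt : Prop := ∀ (R o X A J β : ℕ), 8 ≤ R → (∀ j < o, ∀ A, cell R o j A < 2 ^ (R + 4)) → J < o →
  β < 2 * R + 8 →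
  cnt β (headCov R o A J 0 (headW R o X) (recW R o X A) ((0, 0), 0)).1 ≤
    ∑ A1 ∈ range (X + 1), ∑ j1 ∈ range o, ctr R o A J A1 j1 β ∧
  (headCov R o A J 0 (headW R o X) (recW R o X A) ((0, 0), 0)).2 ≤
    ∑ A1 ∈ range (X + 1), ∑ j1 ∈ range o, ctb R o A J A1 j1

/-- a representation of `(J, I)` by two different points of the automaton -/
def RepS (R o W J : ℕ) (I : ℤ) (q : (ℕ × ℤ) × (ℕ × ℤ)) : Prop :=
  q.1.1 < o ∧ q.2.1 < o ∧ Sf R o W q.1.1 q.1.2 = true ∧ Sf R o W q.2.1 q.2.2 = true ∧ q.1 ≠ q.2 ∧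
    ∃ ε : ℕ, ε ≤ 1 ∧ q.1.1 + q.2.1 = J + ε * o ∧ q.1.2 + q.2.2 = I - ε * ((W : ℤ) - 1)

/-- at least two representations -/
def Two (R o W J : ℕ) (I : ℤ) : Prop :=
  ∃ q q', RepS R o W J I q ∧ RepS R o W J I q' ∧ q ≠ q' ∧ q ≠ (q'.2, q'.1)

/-- no representation -/
def Non (R o W J : ℕ) (I : ℤ) : Prop := ∀ q, ¬RepS R o W J I q

/-- **Row TWO** (medium-long), from EXT. Every element `B₁` counted in `ctr` (for `(A₁, j₁)`) gives the representation
`q = ((j₁, A₁ W + B₁), (j₂, A₂ W + B₂))`, `B₂ = B + ε - B₁`, of `(J, A W + B)` (EXT applies since `|B_i| ≤ 3R + 12 ≤ W - 4`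
and `B_i ≤ R + 11 < W - R`; for a self pair the two points are different since `B₁ < B₂`; for `A₁ < A₂` since
`W` is larger than all differences of offsets in `box`, `4R + 23 < W`; for `A₁ = A₂`, `j₁ < j₂` clear). If two elements
are counted, `(A₁, j₁, B₁) ≠ (A₁', j₁', B₁')`, the first components are different (`j₁ = j₁'` and
`A₁ W + B₁ = A₁' W + B₁'` imply `A₁ = A₁'`). And they are not exchanged: if `(j₁, i₁) = (j₂', i₂')` and `(j₂, i₂) = (j₁', i₁')`
then `A₁ = A₂'`, `A₂ = A₁'`, `j₁ = j₂'`, `j₂ = j₁'`, and `(A₁, j₁) ≤ (A₂, j₂)`, `(A₁', j₁') ≤ (A₂', j₂')` (lexicographic) give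
that both pairs are self pairs, `B₁ < B₂ = B₁' < B₂' = B₁`, a contradiction. The sum is `≥ 2`, so there are two different
elements. Bulk: `x = 7, ..., W - 2R - 2`; `B₁ ∈ [-R, 3]` (a one of the first word) and `B₂ = x + ε - B₁ ∈ [4, W - R - 1]` (right
bit), or with the roles exchanged; the same argument with the decomposition `[-R, W - R)`. -/
def TWO_stmt : Prop := ∀ R o W X A J : ℕ, Tab R o → 5 * R + 20 ≤ W → J < o →
  (∀ β < 2 * R + 8, 2 ≤ ∑ A1 ∈ range (X + 1), ∑ j1 ∈ range o, ctr R o A J A1 j1 β →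
    Two R o W J (A * W + ((β : ℤ) - 2 * R - 1))) ∧
  (2 ≤ ∑ A1 ∈ range (X + 1), ∑ j1 ∈ range o, ctb R o A J A1 j1 →
    ∀ x : ℤ, 7 ≤ x → x ≤ (W : ℤ) - 2 * R - 2 → Two R o W J (A * W + x))

/-- **Row HIT** (medium-long), from CVL, BDN, WID, EXT. Let `q` be a representation of `(J, A W + B)`, `B = β - 2R - 1`, `i_k = A_k W + B_k` with
`-R ≤ B_k < W - R`. Then `A₁ + A₂ + ε = A`, `B₁ + B₂ = B + ε`, or `A₁ + A₂ + ε = A - 1`, `B₁ + B₂ = B + ε + W`; in the second
case `B₁ + B₂ ≥ W - 2R - 1 ≥ 8`, so one of `B₁, B₂` is `≥ 4`, say `B₂`: replace `(A₂, B₂)` by `(A₂ + 1, B₂ - W)`,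
`-(W - 4) ≤ B₂ - W < -R` (EXT: the value is the left bit of the word at `A₂ + 1`). So in any case there are `A₁ + A₂ + ε = A`, `B₁ + B₂ = B + ε` with `wv c B₁`,
`wv d B₂`, `c = cell j₁ A₁`, `d = cell j₂ A₂`. If `B₁ ∈ [-R, 3]` then the pair `(c, d)` marks `β` (`c.al` contains `R + 3 - b`,
index `≤ 3R + 11`), if `B₂ ∈ [-R, 3]` the pair `(d, c)` does; otherwise `B₁ > 3`, `B₂ < -R` or vice versa (both `> 3` is
impossible as `B + ε ≤ 7`, both `< -R` as `B + ε ≥ -2R - 1`) and the third rule marks `β`. All pairs `(A₁, j₁)`, `A₁ ≤ A ≤ X`, occur in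
`hitAll`. Bulk, `7 ≤ x ≤ W - 2R - 2`: in the first case one of `B₁, B₂` is `≥ 4`, say `B₂`, so the right bit of `d` is true, and
`c ≠ 0` (if `B₁ ≥ 4` its right bit is true); in the second case `B₁, B₂ > 3`, both right bits are true, use
`(A₁ + 1, A₂)`: the left bit of the word at `A₁ + 1` is true. -/
def HIT_stmt : Prop := ∀ R o W X A J : ℕ, Tab R o → 5 * R + 20 ≤ W → J < o → A ≤ X →
  (∀ β < 2 * R + 8, (hitAll R A J 0 (headW R o X) (recW R o X A) (0, false)).1.testBit β = false →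
    Non R o W J (A * W + ((β : ℤ) - 2 * R - 1))) ∧
  ((hitAll R A J 0 (headW R o X) (recW R o X A) (0, false)).2 = false →
    ∀ x : ℤ, 7 ≤ x → x ≤ (W : ℤ) - 2 * R - 2 → Non R o W J (A * W + x))

/-- the cells in which no representation is allowed -/
def Alw (W J : ℕ) (I : ℤ) : Prop := J = 0 ∨ 3 ≤ J ∨ (J = 2 ∧ 2 * (W : ℤ) - 1 ≤ I)

/-- **Row CHJ** (short-medium), from HCV, TWO, HIT. Unfold `chkJ`. `acc.1.2.testBit β` gives `cnt β = 2`, so the sum is `≥ 2`. A bit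
`β` of `(req R A J).1` is either covered or a bit of `rest`. For `J = 2`, `A = 2` the bits of `rest` are `≥ 2R`, i.e. `B ≥ -1`. -/
def CHJ_stmt : Prop := ∀ R o W X A J : ℕ, Tab R o → 5 * R + 20 ≤ W → J < o →
  chkJ R o X A J (headW R o X) (recW R o X A) = true →
  (∀ β < 2 * R + 8, (req R A J).1.testBit β = true →
    Two R o W J (A * W + ((β : ℤ) - 2 * R - 1)) ∨
      (Non R o W J (A * W + ((β : ℤ) - 2 * R - 1)) ∧ Alw W J (A * W + ((β : ℤ) - 2 * R - 1)))) ∧
  ((req R A J).2 = true → ∀ x : ℤ, 7 ≤ x → x ≤ (W : ℤ) - 2 * R - 2 →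
    Two R o W J (A * W + x) ∨ (Non R o W J (A * W + x) ∧ Alw W J (A * W + x)))

/-- **Row RUN** (medium to long), from ROW, HCV. Unfold `chk` and `run` (induction on `n`): for `A < N` the row `A` satisfies
`marg`, the rows `A - 1`, `A` satisfy `contR`, and `chkJ` is true with `head = headW`, `rec = recW`
(`mrow R (rows R o A).1 = rowW R o A`; the list `rec` in `run` before the row `A` is
`(recW (A-1))` (zero rows for `A = 0`), and `(rowW A :: recW (A-1)).take (X+2) = recW A`). `rows R o (S + P) = rows R o S`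
implies `rows R o (A + P) = rows R o A` for `A ≥ S`, so `cell R o j (A + P) = cell R o j A` for `A ≥ S` and `marg`, `contR`
hold for all `A`. For `A ≥ N` take `A' ≡ A` modulo `P` with `S + X + 2 ≤ A' < S + X + 2 + P ≤ N`. The parts `ctr`, `ctb`
with `A₁ ≤ X` agree for `A` and `A'` (`A' - A₁ - ε ≥ S + 1 > X ≥ A₁`, so the first case applies for both, and the words
agree). `chkJ` at `A' > X`, `A' ≥ 4` says that `(req R A' J) = (fm R, true)` and `rest = 0`, `bb = false`: all bits of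
`acc.1.2` are set (`cnt = 2`) and `2 ≤ acc.2`; now HCV. -/
def RUN_stmt : Prop := ∀ R o X S P N : ℕ, chk R o X S P N = true →
  Tab R o ∧ (∀ j < o, ∀ A, S ≤ A → cell R o j (A + P) = cell R o j A) ∧ 0 < P ∧ 2 ≤ X ∧
  (∀ A < N, ∀ J < o, chkJ R o X A J (headW R o X) (recW R o X A) = true) ∧
  ∀ A, N ≤ A → ∀ J < o,
    (∀ β < 2 * R + 8, 2 ≤ ∑ A1 ∈ range (X + 1), ∑ j1 ∈ range o, ctr R o A J A1 j1 β) ∧
    2 ≤ ∑ A1 ∈ range (X + 1), ∑ j1 ∈ range o, ctb R o A J A1 j1

/-! ## Block E: even numbers -/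

/-- the cells which are treated by hand -/
def Hand (W J : ℕ) (I : ℤ) : Prop :=
  I < 0 ∨ (J ≤ 1 ∧ I ≤ (W : ℤ) - 2) ∨ (J = 2 ∧ I ≤ 2) ∨ (J = 0 ∧ I = 2 * (W : ℤ) - 1)

/-- **Row MCC** (short-medium), from RUN, CHJ, TWO. `A = ((I + 2R + 1) / W).toNat`, `B = I - A W`, so
`-2R-1 ≤ B ≤ W - 2R - 2`; `B ≤ 6`: `β = B + 2R + 1`, `B ≥ 7`: `x = B`. For `A < N` use CHJ: if `I` is not
treated by hand then `(req R A J).1.testBit β` resp. `(req R A J).2` is true (`A = 0`: `B = I ≥ 0`, `J ≥ 2`; if `J = 2` then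
`I ≥ 3`, `β ≥ 2R + 4`; if `J ≥ 3`, `β ≥ 2R + 1`. `A = 1`, `J ≤ 1`: `I ≥ W - 1`, `B ≥ -1`, `β ≥ 2R`. `A = 2`, `J = 0`: `I ≠ 2W - 1`,
`β ≠ 2R`). For `A ≥ N` use RUN and TWO. -/
def MCC_stmt : Prop := ∀ R o X S P N W : ℕ, chk R o X S P N = true → 5 * R + 20 ≤ W →
  ∀ J < o, ∀ I : ℤ, ¬Hand W J I → Two R o W J I ∨ (Non R o W J I ∧ Alw W J I)

/-- **Row SMA** (medium), from EXT. Values from `first` and EXT (`A = 0, 1, 2`): column `0`: on `[0, 2W - 1]` exactly `0` and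
`[W - 1, 2W - 2]`; column `1`: all of `[0, W - 2]`; the even columns `j ≥ 2`: on `[0, W]` exactly `0`; the odd columns
`j ≥ 3`: not at `W`; column `1`: not at `W`. (i) clear. (ii) `ε = 1` would need `i₁ + i₂ < 0`; `ε = 0`: `j₁ = j₂ = 0`,
`i₁ = i₂ = 0`, not different. (iii) `ε = 0` again, `{j₁, j₂} = {0, 1}`, the point of column `0` is `0`. (iv) `ε = 0`: two different
points of column `0` with sum `2W - 1`: `{W - 1, W}` only. `ε = 1`: `j₁ + j₂ = o` odd, `j₁, j₂ ≥ 1`, `i₁ + i₂ = W`; one of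
`j₁, j₂` is even (`≥ 2`), its point is `0`, the other is `W` in an odd column: impossible. (v) `((0,0),(2,0))`,
`((1,0),(1,1))`, `((1,0),(1,2))`. -/
def SMA_stmt : Prop := ∀ R o W : ℕ, Tab R o → 5 * R + 20 ≤ W →
  (∀ J < o, ∀ I : ℤ, I < 0 → Non R o W J I) ∧
  (∀ I : ℤ, 0 ≤ I → I ≤ (W : ℤ) - 2 → Non R o W 0 I) ∧
  (∀ I : ℤ, 0 ≤ I → I ≤ (W : ℤ) - 2 →
    ∀ q, RepS R o W 1 I q ↔ q = ((0, 0), (1, I)) ∨ q = ((1, I), (0, 0))) ∧
  (∀ q, RepS R o W 0 (2 * (W : ℤ) - 1) q ↔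
    q = ((0, (W : ℤ) - 1), (0, (W : ℤ))) ∨ q = ((0, (W : ℤ)), (0, (W : ℤ) - 1))) ∧
  (∀ I : ℤ, 0 ≤ I → I ≤ 2 → ∃ q, RepS R o W 2 I q)

/-- pairs of different elements of `T` with sum `M` -/
def TR (T : Set ℕ) (M : ℕ) (p : ℕ × ℕ) : Prop := p.1 < p.2 ∧ p.1 ∈ T ∧ p.2 ∈ T ∧ p.1 + p.2 = M

/-- **Row REP** (medium), from CRD. Let `val (j, i) = ((W-1) j + o i).toNat`. If `q` is in `RepS` then `i₁, i₂ ≥ 0`, `val q.1`,
`val q.2` are two different elements of `T` with sum `M` (`(W-1)(J + ε o) + o (I - ε (W-1)) = (W-1) J + o I`), and `val` is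
injective on the points with `j < o`, `i ≥ 0` (CRD); so `q ↦ ` (ordered pair of the values) and the fibres are `{q, swap q}`.
Conversely, `m₁, m₂ ∈ T` with `m₁ + m₂ = M` have coordinates with `(W-1)(j₁ + j₂ - J) = o (I - i₁ - i₂)`, so `o` divides
`j₁ + j₂ - J ∈ (-o, 2o - 2]`, which is `0` or `o`. -/
def REP_stmt : Prop := ∀ R o W : ℕ, 1 ≤ o → 1 ≤ W → Nat.Coprime o (W - 1) → ∀ J < o, ∀ (I : ℤ) (M : ℕ),
  (M : ℤ) = ((W : ℤ) - 1) * J + o * I →
  (Two R o W J I → ∃ p p', TR (Tset R o W) M p ∧ TR (Tset R o W) M p' ∧ p ≠ p') ∧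
  (Non R o W J I → ∀ p, ¬TR (Tset R o W) M p) ∧
  (∀ q₀, (∀ q, RepS R o W J I q ↔ q = q₀ ∨ q = (q₀.2, q₀.1)) → ∃! p, TR (Tset R o W) M p) ∧
  ((∃ q, RepS R o W J I q) → ∃ p, TR (Tset R o W) M p)

/-- **Row DLT** (short-medium), from CRD. The half of an even term and the sums of two of them in coordinates. `h = W - 1`,
`n = o + M`, `M = h J + o I`. `n = h + k o`: `(J, I) = (1, k - 1)` for `k ≥ 1` (`k = 0` would give `n = h`);
`n = 2 W o`: `(0, 2W - 1)`. Sum of `h + k₁ o`, `h + k₂ o`, `k₁ < k₂ ≤ h`: `(2, k₁ + k₂ - 1)`, `0 ≤ k₁ + k₂ - 1 ≤ 2W - 4`; of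
`h + k o` and `2 W o`: `(1, k + 2W - 1)`. (`o ≥ 3` for `2 < o`.) -/
def DLT_stmt : Prop := ∀ o W : ℕ, 3 ≤ o → o < W → Nat.Coprime o (W - 1) → ∀ J < o, ∀ (I : ℤ) (n : ℕ),
  (n : ℤ) = o + ((W : ℤ) - 1) * J + o * I → W - 1 < n →
  (n ∈ Del o (W - 1) ↔ (J = 1 ∧ 0 ≤ I ∧ I ≤ (W : ℤ) - 2) ∨ (J = 0 ∧ I = 2 * (W : ℤ) - 1)) ∧
  (∀ q : ℕ × ℕ, q.1 < q.2 → q.1 ∈ Del o (W - 1) → q.2 ∈ Del o (W - 1) → q.1 + q.2 = n →
    (J = 2 ∧ 0 ≤ I ∧ I ≤ 2 * (W : ℤ) - 4) ∨ (J = 1 ∧ 2 * (W : ℤ) - 1 ≤ I)) ∧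
  (J = 2 → 0 ≤ I → I ≤ 2 → ∃ q : ℕ × ℕ, q.1 < q.2 ∧ q.1 ∈ Del o (W - 1) ∧ q.2 ∈ Del o (W - 1) ∧ q.1 + q.2 = n)

/-- **Row EVN** (medium), from OEV, CRD, RUN (only for `Tab`), TRC (the hypotheses of OEV), MCC, SMA, REP, DLT. `M = n - o > 0` (`n > W - 1 ≥ o`), coordinates `(J, I)` of `M`.
Representations of `2n`: the pairs in `TR T M` and the pairs of `Del`. Cases: `Two` (by MCC): two of the first kind, so not unique,
and `n ∉ Del` (DLT: `n ∈ Del` only in cells treated by hand). `Non` and `Alw`: none of the first kind, none of the second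
(DLT), `n ∉ Del`. By hand: `I < 0`: none at all, `n ∉ Del`; `J = 0`, `0 ≤ I ≤ W - 2`: none, `n ∉ Del`; `J = 1`, `0 ≤ I ≤ W - 2`: exactly
one of the first kind, none of the second, `n ∈ Del`; `J = 0`, `I = 2W - 1`: the same; `J = 2`, `0 ≤ I ≤ 2`: one of each kind (they are
different: odd and even entries), `n ∉ Del`. -/
def EVN_stmt : Prop := ∀ R o X S P N W : ℕ, chk R o X S P N = true → 5 * R + 20 ≤ W → o < W →
  Nat.Coprime o (W - 1) → ∀ n, W - 1 < n →
  (2 * n ∈ Vset o (W - 1) (Tset R o W) ↔ ∃! p, Rep (Vset o (W - 1) (Tset R o W)) (2 * n) p)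

/-- **Row PRT** (medium), from CRD. `Sf j (i + P W) = Sf j i` for `i ≥ S W` (`mA` grows by `P`), so `m ∈ T ↔ m + o P W ∈ T` if `m`
has a coordinate `i ≥ S W`, in particular for `m ≥ (W - 1) o + o S W`. Even elements of `Vset` are `≤ 4 W o`. -/
def PRT_stmt : Prop := ∀ R o W S P : ℕ, Tab R o → R + 10 ≤ W → o < W → Nat.Coprime o (W - 1) →
  (∀ j < o, ∀ A, S ≤ A → cell R o j (A + P) = cell R o j A) →
  ∀ x, 2 * o * (S + 5) * W + o ≤ x →
    (x ∈ Vset o (W - 1) (Tset R o W) ↔ x + 2 * (o * P * W) ∈ Vset o (W - 1) (Tset R o W))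

/-- **Row ULM** (medium), from ULS, GAP, OEV, RUN, TRC, EVN, PRT. Assembly. `a = o`, `b = 2 h`, `W = h + 1`, `V = Vset o h (Tset R o W)`. -/
def ULM_stmt : Prop := ∀ R o X S P N h : ℕ, chk R o X S P N = true → 5 * R + 20 ≤ h + 1 → o < h →
  Nat.Coprime o h → ∃ (u : ℕ → ℕ) (K Q D : ℕ), (∀ v, IsUlam o (2 * h) v ↔ v = u) ∧ StrictMono u ∧
    {x | x ∈ Set.range u ∧ x % 2 = 0}.ncard = h + 2 ∧
    0 < Q ∧ 0 < D ∧ (∀ k, K ≤ k → u (k + Q) = u k + D) ∧
    (∀ x, K ≤ x → (x ∈ Set.range u ↔ x + D ∈ Set.range u))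

end Pool.Agent.UL
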