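import Mathlib

/-!
# Project ul (MP_62ffdf_lc), block N: ultimately periodic sets are tame

For `V ⊆ ℕ` ultimately periodic the theory of `(ℕ, +, V)` is NIP and the structure does not interpret
`(ℕ, +, ×)`. Rules as in `Spec.lean` (import `Pool.Agent.helper7.UL.SpecN` for the rows of this file).
-/

set_option autoImplicit false

namespace Pool.Agent.UL

open FirstOrder Language

/-- the function symbols: addition -/
inductive UFun : ℕ → Type
  | add : UFun 2

/-- the relation symbols: one unary predicate -/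
inductive URel : ℕ → Type
  | mem : URel 1

/-- the language with a binary function symbol and a unary relation symbol -/
def LU : FirstOrder.Language.{0, 0} := ⟨UFun, URel⟩

/-- the structure `(ℕ, +, V)` -/
@[reducible] def uStr (V : Set ℕ) : LU.Structure ℕ where
  funMap := fun {_} f => match f with
    | .add => fun v => v 0 + v 1
  RelMap := fun {_} r => match r with
    | .mem => fun v => v 0 ∈ V

/-- the formula `φ` shatters `k` points of the structure `N` -/
def Shat (L : FirstOrder.Language.{0, 0}) (N : Type) [L.Structure N] {m n : ℕ} (φ : L.Formula (Fin m ⊕ Fin n)) (k : ℕ) :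
    Prop :=
  ∃ (a : Fin k → Fin m → N) (b : Set (Fin k) → Fin n → N), ∀ i S,
    φ.Realize (Sum.elim (a i) (b S)) ↔ i ∈ S

/-- the theory `T` is NIP: for every formula `φ (x; y)` there is a `k` such that in no model of `T` the
formula shatters `k` points -/
def NIP (L : FirstOrder.Language.{0, 0}) (T : L.Theory) : Prop :=
  ∀ (m n : ℕ) (φ : L.Formula (Fin m ⊕ Fin n)), ∃ k : ℕ,
    ∀ (N : Type) [L.Structure N] [Nonempty N], N ⊨ T → ¬Shat L N φ k

/-- the structure `M` interprets `(ℕ, +, ×)` (parameters are allowed): there are a definable `D ⊆ M ^ k` and a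
map `f` from `D` onto `ℕ` such that the preimages of equality, of the graph of addition and of the
graph of multiplication are definable -/
def IntArith (L : FirstOrder.Language.{0, 0}) (M : Type) [L.Structure M] : Prop :=
  ∃ (k : ℕ) (D : Set (Fin k → M)) (f : (Fin k → M) → ℕ),
    (Set.univ : Set M).Definable L D ∧ (∀ y, ∃ x ∈ D, f x = y) ∧
    (Set.univ : Set M).Definable L {v : Fin k ⊕ Fin k → M |
      (v ∘ Sum.inl) ∈ D ∧ (v ∘ Sum.inr) ∈ D ∧ f (v ∘ Sum.inl) = f (v ∘ Sum.inr)} ∧
    (Set.univ : Set M).Definable L {v : (Fin k ⊕ Fin k) ⊕ Fin k → M |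
      (v ∘ Sum.inl ∘ Sum.inl) ∈ D ∧ (v ∘ Sum.inl ∘ Sum.inr) ∈ D ∧ (v ∘ Sum.inr) ∈ D ∧
      f (v ∘ Sum.inl ∘ Sum.inl) + f (v ∘ Sum.inl ∘ Sum.inr) = f (v ∘ Sum.inr)} ∧
    (Set.univ : Set M).Definable L {v : (Fin k ⊕ Fin k) ⊕ Fin k → M |
      (v ∘ Sum.inl ∘ Sum.inl) ∈ D ∧ (v ∘ Sum.inl ∘ Sum.inr) ∈ D ∧ (v ∘ Sum.inr) ∈ D ∧
      f (v ∘ Sum.inl ∘ Sum.inl) * f (v ∘ Sum.inl ∘ Sum.inr) = f (v ∘ Sum.inr)}

/-- the ultimately periodic sets -/
def UP (V : Set ℕ) : Prop := ∃ k, ∃ p > 0, ∀ x ≥ k, x ∈ V ↔ x + p ∈ V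

/-- **Row NSL** (medium). Copy the proof of `isSemilinearSet_boundedFormula_realize`,
`isSemilinearSet_formula_realize_semilinear` (Mathlib, ModelTheory/Arithmetic/Presburger/Definability.lean)
for the language `LU` with constants: a term is `k + u ⬝ᵥ v`; new case: the relation symbol, the preimage
of `V` (semilinear in `ℕ` by `Nat.isSemilinearSet_iff_ultimately_periodic`) under `v ↦ k + u ⬝ᵥ v`: the preimage
of `{y | k + y ∈ V}` (ultimately periodic) under a linear map, `IsSemilinearSet.preimage`. -/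
def NSL_stmt : Prop := ∀ V : Set ℕ, UP V → ∀ (α : Type) [Finite α] (s : Set (α → ℕ)),
  @Set.Definable ℕ Set.univ LU (uStr V) α s → IsSemilinearSet s

/-- the sets given by the signs and the residues of finitely many affine forms -/
def Atm {α : Type} [Fintype α] (s : Set (α → ℕ)) : Prop :=
  ∃ (ι : Type) (_ : Fintype ι) (lam : ι → α → ℤ) (kap : ι → ℤ) (N : ι → ℕ) (F : Set (ι → Bool × ℤ)),
    (∀ i, 0 < N i) ∧ ∀ x : α → ℕ, x ∈ s ↔
      (fun i => (decide (0 ≤ ∑ a, lam i a * (x a : ℤ) + kap i),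
        (∑ a, lam i a * (x a : ℤ) + kap i) % (N i : ℤ))) ∈ F

/-- **Row NUN** (short-medium). Index set the sum of the two index sets; induction for finite unions. -/
def NUN_stmt : Prop := ∀ (α : Type) [Fintype α] (S : Set (Set (α → ℕ))), S.Finite → (∀ s ∈ S, Atm s) →
  Atm (⋃₀ S)

/-- **Row NPL** (medium-long). `s = a + closure t`, `t` finite and linearly independent over `ℕ`. The vectors of `t` are linearly
independent in `α → ℚ` (copy `linearIndepOn_toRatVec` of Mathlib, .../Presburger/Semilinear/Basic.lean). So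
there are linear forms `ℓ_g : (α → ℚ) → ℚ`, `g ∈ t`, with `ℓ_g g' = δ` (`LinearMap.exists_leftInverse_of_injective` or a basis
extending `t`). Let `N > 0` be a common denominator of their coefficients. `x ∈ s` iff for all `g`: `N ℓ_g (x - a) ≥ 0` and
`N ℓ_g (x - a) ≡ 0 mod N`, and for all coordinates `i`: `N (x - a)_i - ∑ g, N ℓ_g (x - a) g_i` is `≥ 0` and its negative is `≥ 0`
(then `c_g = ℓ_g (x - a) ∈ ℕ` and `x = a + ∑ c_g g`). Index set `t ⊕ (α ⊕ α)`. -/
def NPL_stmt : Prop := ∀ (α : Type) [Fintype α] (s : Set (α → ℕ)), IsProperLinearSet s → Atm s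

/-- **Row NAT** (short), from NUN, NPL. `IsSemilinearSet.isProperSemilinearSet`. -/
def NAT_stmt : Prop := ∀ (α : Type) [Fintype α] (s : Set (α → ℕ)), IsSemilinearSet s → Atm s

/-- `k` points are shattered by the relation `s` -/
def ShS {M : Type} {m n : ℕ} (s : Set (Fin m ⊕ Fin n → M)) (k : ℕ) : Prop :=
  ∃ (a : Fin k → Fin m → M) (b : Set (Fin k) → Fin n → M), ∀ i S, Sum.elim (a i) (b S) ∈ s ↔ i ∈ S

/-- **Row NTR** (medium). For the form `i` put `A_t = ∑ (over Fin m) lam i a * a_t a` and `y = ∑ (over Fin n) lam i a * b a + kap i`. The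
map `S ↦ (i ↦ (number of t with 0 ≤ A_t + y, y mod N_i))` from `Set (Fin k)` to `ι → Fin (k+1) × ZMod (N_i)` is
injective: the number determines the set `{t | -y ≤ A_t}` (these sets are nested), so the signs for all `t`, and the residue
of `y` that of `A_t + y`; so the truth of `(a_t, b_S) ∈ s` for all `t`, that is `S`. Hence
`2 ^ k ≤ ∏ (k + 1) N_i = C (k + 1) ^ r`, false for large `k`. -/
def NTR_stmt : Prop := ∀ (m n : ℕ) (s : Set (Fin m ⊕ Fin n → ℕ)), Atm s → ∃ k, ¬ShS s k

/-- **Row NTH** (medium). The sentence `∃ (a_i) ∃ (b_S) ⋀ (φ (a_i, b_S) or ¬ φ (a_i, b_S))` with the variables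
`(Fin k × Fin m) ⊕ (Set (Fin k) × Fin n)` (`Formula.iExs`, `Formula.iInf`, `Formula.relabel`) says that `φ` shatters `k`
points; it is false in `M`, so its negation is in the complete theory. -/
def NTH_stmt : Prop := ∀ (L : FirstOrder.Language.{0, 0}) (M : Type) [L.Structure M] [Nonempty M],
  (∀ (m n : ℕ) (φ : L.Formula (Fin m ⊕ Fin n)), ∃ k, ¬Shat L M φ k) → NIP L (L.completeTheory M)

/-- **Row NIN** (short-medium). Let `k, D, f` be an interpretation. The relation `f x ∣ f y` on `D`, that is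
`∃ z ∈ D, f x * f z = f y`, is definable (`Set.Definable.image_comp`..., `Set.Definable.preimage_comp`) and shatters any number
`r` of points: `f (a_i) = p_i` (different primes), `f (b_S) = ∏ i ∈ S, p_i`. -/
def NIN_stmt : Prop := ∀ (L : FirstOrder.Language.{0, 0}) (M : Type) [L.Structure M],
  (∀ (m n : ℕ) (s : Set (Fin m ⊕ Fin n → M)), (Set.univ : Set M).Definable L s → ∃ k, ¬ShS s k) →
  ¬IntArith L M

/-- **Row NFN** (short), from NSL, NAT, NTR, NTH, NIN. A formula without parameters defines a definable set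
(`Set.Definable.mono` from `∅`, or directly). -/
def NFN_stmt : Prop := ∀ V : Set ℕ, UP V →
  NIP LU (@FirstOrder.Language.completeTheory LU ℕ (uStr V)) ∧ ¬@IntArith LU ℕ (uStr V)

end Pool.Agent.UL
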